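import Pool.Agent.N76.SR.Stm

set_option autoImplicit false

/-!
# CORE: the dimension of the space of the locally constant combinations

Project SR (helper76); adapted from `Pool/Agent/Y94/R/Core.lean` and `Real.lean` (helper568).
-/

namespace Pool.Agent.N76.SR

open Polynomial MeasureTheory Set Filter Topology Module
open Pool.Agent.Y94.R
open scoped Real

namespace CoreAux

section

variable {D P Q r : ℂ[X]} {m : ℕ} (γ : Fin m → Lp D)

theorem der_ne (h : Pell D P Q r) : derivative P ≠ 0 := by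
  rw [h.der]
  exact mul_ne_zero h.r_ne h.Q_ne

theorem isOpen_TTr (hP : derivative P ≠ 0) : IsOpen (TTr γ P) := by
  have h1 : TTr γ P = ({t : ℝ | |t| < 1} ∩
      (fun t : ℝ => (t : ℂ)) ⁻¹' ((fun b => P.eval b) '' {b | (derivative P).eval b = 0})ᶜ) ∩
      ⋂ l, ((fun t : ℝ => (t : ℂ)) ⁻¹' ((fun b => P.eval b) '' range (γ l).x)ᶜ) := by
    ext t
    simp only [TTr, mem_ofPred_eq, mem_inter_iff, mem_iInter, mem_preimage, mem_compl_iff, mem_image,
      mem_range, exists_exists_eq_and, not_exists, not_and]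
    constructor
    · rintro ⟨h1, h⟩
      refine ⟨⟨h1, fun b hb hb' => (h b hb').1 hb⟩, fun l s hs => ?_⟩
      exact (h _ hs).2 l s (sub_self _)
    · rintro ⟨⟨h1, h2⟩, h3⟩
      refine ⟨h1, fun b hb => ⟨fun hb' => h2 b hb' hb, fun l s hs => ?_⟩⟩
      exact h3 l s (by rw [sub_eq_zero.1 hs, hb])
  rw [h1]
  have hfin : {b : ℂ | (derivative P).eval b = 0}.Finite := by
    refine ((derivative P).roots.toFinset.finite_toSet).subset fun b hb => ?_
    rw [Finset.mem_coe, Multiset.mem_toFinset, mem_roots hP]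
    exact hb
  refine ((isOpen_lt continuous_abs continuous_const).inter
    (IsOpen.preimage Complex.continuous_ofReal ?_)).inter
    (isOpen_iInter_of_finite fun l => IsOpen.preimage Complex.continuous_ofReal ?_)
  · exact (hfin.image _).isClosed.isOpen_compl
  · exact (((γ l).isCompact_range.image P.continuous).isClosed).isOpen_compl

theorem TTr_infinite (hfin : {t : ℝ | |t| < 1 ∧ t ∉ TTr γ P}.Finite) : (TTr γ P).Infinite := by
  intro h
  have h1 : {t : ℝ | |t| < 1}.Infinite := by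
    refine infinite_of_mem_nhds (0 : ℝ) ?_
    exact (isOpen_lt continuous_abs continuous_const).mem_nhds (by simp)
  refine h1 ((h.union hfin).subset fun t ht => ?_)
  by_cases h2 : t ∈ TTr γ P
  · exact Or.inl h2
  · exact Or.inr ⟨ht, h2⟩

theorem real_of_loc (h : Pell D P Q r) {c : Fin m → ℝ} (hc : Loc γ P r c)
    {b₀ : ℂ} {t₀ : ℝ} (ht₀' : t₀ ∈ TTr γ P) (hb₀ : P.eval b₀ = t₀) :
    r.eval b₀ ≠ 0 ∧ (((derivative P).eval b₀)⁻¹ * Jc γ c r b₀).im = 0 ∧
    ∃ θ : ℝ, (nF (Ic γ c) (NN D)).eval b₀ * r.eval b₀ ^ 2 +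
      1 / 2 * (derivative D).eval b₀ * (RR (Ic γ c) r).eval b₀ * r.eval b₀ +
      D.eval b₀ * ((derivative (RR (Ic γ c) r)).eval b₀ * r.eval b₀ -
        (RR (Ic γ c) r).eval b₀ * (derivative r).eval b₀) = θ * r.eval b₀ ^ 3 := by
  have ht₀ : |t₀| < 1 := ht₀'.1
  have hoff : ∀ l, (γ l).Off b₀ := (ht₀'.2 b₀ hb₀).2
  have hr : r.eval b₀ ≠ 0 := by
    intro h0
    refine (ht₀'.2 b₀ hb₀).1 ?_
    rw [h.der, eval_mul, h0, zero_mul]
  refine ⟨hr, ?_⟩
  set R := RR (Ic γ c) r with hR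
  have hpe := congrArg (Polynomial.eval b₀) h.eq
  have hpr := congrArg (Polynomial.eval b₀) h.mul_r
  have hpd := congrArg (Polynomial.eval b₀) h.der
  simp only [eval_add, eval_sub, eval_mul, eval_pow, eval_C, eval_one] at hpe hpr hpd
  have hQ : Q.eval b₀ ≠ 0 := by
    intro h0
    rw [h0, hb₀] at hpe
    have h1 : (t₀ : ℂ) ^ 2 = 1 := by linear_combination hpe
    have h2 : t₀ ^ 2 = 1 := by exact_mod_cast h1
    have h3 : t₀ ^ 2 < 1 := by rwa [sq_lt_one_iff_abs_lt_one]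
    exact h3.ne h2
  have hP' : (derivative P).eval b₀ ≠ 0 := by
    rw [hpd]
    exact mul_ne_zero hr hQ
  obtain ⟨ψ, hψ0, hψ⟩ := exists_inverse P hP'
  rw [hb₀] at hψ0 hψ
  have hψc : ContinuousAt ψ (t₀ : ℂ) := (hψ.self_of_nhds.2).continuousAt
  have hnear : ∀ᶠ b in 𝓝 b₀, (∀ l, (γ l).Off b) ∧ r.eval b ≠ 0 ∧ Q.eval b ≠ 0 := by
    have h1 : ∀ᶠ b in 𝓝 b₀, ∀ l, (γ l).Off b := (isOpen_off_all γ).mem_nhds hoff
    refine h1.and ?_
    exact (r.continuous.continuousAt.eventually_ne hr).and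
      (Q.continuous.continuousAt.eventually_ne hQ)
  have hall : ∀ᶠ t in 𝓝 (t₀ : ℂ), ((∀ l, (γ l).Off (ψ t)) ∧ r.eval (ψ t) ≠ 0 ∧
      Q.eval (ψ t) ≠ 0) ∧ P.eval (ψ t) = t ∧
      HasDerivAt ψ ((derivative P).eval (ψ t))⁻¹ t := by
    refine Filter.Eventually.and ?_ hψ
    have h1 := hψc.tendsto
    rw [hψ0] at h1
    exact h1.eventually hnear
  obtain ⟨ε, hε, hball⟩ := Metric.eventually_nhds_iff_ball.1 hall
  have hcast : ∀ t : ℝ, t ∈ Metric.ball t₀ ε → (t : ℂ) ∈ Metric.ball (t₀ : ℂ) ε := by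
    intro t ht
    rw [Metric.mem_ball, Complex.dist_eq, ← Complex.ofReal_sub, Complex.norm_real]
    exact ht
  have hreal : ∀ᶠ t : ℝ in 𝓝 t₀,
      (((derivative P).eval (ψ (t : ℂ)))⁻¹ * Jc γ c r (ψ (t : ℂ))).im = 0 := by
    filter_upwards [(isOpen_TTr γ (der_ne h)).mem_nhds ht₀', Metric.ball_mem_nhds t₀ hε] with t h1 h2
    exact hc t h1 _ (hball t (hcast t h2)).2.1
  -- the function `k`
  obtain ⟨k, hk⟩ : ∃ k : ℂ → ℂ, k = fun b => (J0c γ c b + R.eval b / r.eval b) / Q.eval b :=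
    ⟨_, rfl⟩
  have hk1 : ∀ b : ℂ, (∀ l, (γ l).Off b) → r.eval b ≠ 0 → Q.eval b ≠ 0 →
      ((derivative P).eval b)⁻¹ * Jc γ c r b = k b := by
    intro b h1 h2 h3
    have h4 := congrArg (Polynomial.eval b) h.der
    rw [eval_mul] at h4
    rw [h4, Jc_eq γ c r h1, hk, ← hR]
    field_simp
  set k' : ℂ := ((J1c γ c b₀ + ((derivative R).eval b₀ * r.eval b₀ -
    R.eval b₀ * (derivative r).eval b₀) / r.eval b₀ ^ 2) * Q.eval b₀ -
      (J0c γ c b₀ + R.eval b₀ / r.eval b₀) * (derivative Q).eval b₀) / Q.eval b₀ ^ 2 with hk'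
  have hk2 : HasDerivAt k k' b₀ := by
    rw [hk]
    exact ((hasDerivAt_J0c γ c hoff).add ((R.hasDerivAt b₀).div (r.hasDerivAt b₀) hr)).div
      (Q.hasDerivAt b₀) hQ
  have hψd : HasDerivAt ψ (r.eval b₀ * Q.eval b₀)⁻¹ (t₀ : ℂ) := by
    have h1 := hψ.self_of_nhds.2
    rw [hψ0, hpd] at h1
    exact h1
  have hk3 : HasDerivAt (fun t : ℝ => k (ψ (t : ℂ))) (k' * (r.eval b₀ * Q.eval b₀)⁻¹) t₀ := by
    rw [← hψ0] at hk2
    exact (hk2.comp (t₀ : ℂ) hψd).comp_ofReal
  have hk4 : (k' * (r.eval b₀ * Q.eval b₀)⁻¹).im = 0 := by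
    have h1 : HasDerivAt (fun t : ℝ => (k (ψ (t : ℂ))).im)
        (k' * (r.eval b₀ * Q.eval b₀)⁻¹).im t₀ :=
      Complex.imCLM.hasFDerivAt.comp_hasDerivAt t₀ hk3
    have h2 : HasDerivAt (fun t : ℝ => (k (ψ (t : ℂ))).im) 0 t₀ := by
      refine (hasDerivAt_const t₀ (0 : ℝ)).congr_of_eventuallyEq ?_
      filter_upwards [hreal, Metric.ball_mem_nhds t₀ hε] with t h3 h4
      have h5 := hball t (hcast t h4)
      rw [hk1 _ h5.1.1 h5.1.2.1 h5.1.2.2] at h3
      exact h3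
    exact h1.unique h2
  have hk0 : (k b₀).im = 0 := by
    have h1 := hreal.self_of_nhds
    rw [hψ0, hk1 _ hoff hr hQ] at h1
    exact h1
  refine ⟨by rw [hk1 _ hoff hr hQ]; exact hk0, ?_⟩
  obtain ⟨κ₀, hκ₀⟩ : ∃ κ₀ : ℝ, k b₀ = κ₀ := ⟨(k b₀).re, Complex.ext rfl hk0⟩
  obtain ⟨κ₁, hκ₁⟩ : ∃ κ₁ : ℝ, k' * (r.eval b₀ * Q.eval b₀)⁻¹ = κ₁ :=
    ⟨(k' * (r.eval b₀ * Q.eval b₀)⁻¹).re, Complex.ext rfl hk4⟩
  refine ⟨t₀ * κ₀ + (t₀ ^ 2 - 1) * κ₁, ?_⟩
  push_cast
  rw [← hκ₀, ← hκ₁, ← hb₀, ← exch_c γ c hoff, hk', hk]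
  have h1 : P.eval b₀ ^ 2 - 1 = D.eval b₀ * Q.eval b₀ ^ 2 := by linear_combination hpe
  rw [h1]
  field_simp
  linear_combination (-2 * r.eval b₀ * (R.eval b₀ + r.eval b₀ * J0c γ c b₀)) * hpr

/-- the vectors `c` in `NL` such that `R` is divisible by `s` -/
noncomputable def Ns (P r : ℂ[X]) (s : ℂ[X]) : Submodule ℝ (Fin m → ℝ) where
  carrier := {c | c ∈ NL γ P r ∧ s ∣ Rc γ r c}
  zero_mem' := by
    refine ⟨Submodule.zero_mem _, ?_⟩
    have h := Rc_smul (r := r) γ 0 0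
    rw [zero_smul, Complex.ofReal_zero, C_0, zero_mul] at h
    rw [h]
    exact dvd_zero s
  add_mem' := by
    rintro c c' ⟨h1, h2⟩ ⟨h3, h4⟩
    refine ⟨Submodule.add_mem _ h1 h3, ?_⟩
    rw [Rc_add]
    exact dvd_add h2 h4
  smul_mem' := by
    rintro a c ⟨h1, h2⟩
    refine ⟨Submodule.smul_mem _ a h1, ?_⟩
    rw [Rc_smul]
    exact h2.mul_left _

theorem realTheta (h : Pell D P Q r) {c : Fin m → ℝ} (hc : c ∈ NL γ P r) :
    RealTheta P (TTr γ P) D r (nF (Ic γ c) (NN D)) (Rc γ r c) := by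
  have hFK : ∀ᶠ b in KF P (TTr γ P), ∃ t ∈ TTr γ P, P.eval b = (t : ℝ) :=
    (eventually_principal.2 fun b hb => hb).filter_mono inf_le_right
  filter_upwards [hFK] with b ⟨t, ht, hb⟩
  obtain ⟨hrb, -, θ, hθ⟩ := real_of_loc γ h hc ht hb
  refine ⟨hrb, θ, ?_⟩
  rw [← hθ]
  unfold WW Rc
  simp

/-- critical values in `[-1, 1]` -/
theorem eval_eq_zero_of_abs_le (hD : Squarefree D) (h : Pell D P Q r)
    (hoff : ∀ l β, r.eval β = 0 → (γ l).Off β)
    (hfin : {t : ℝ | |t| < 1 ∧ t ∉ TTr γ P}.Finite) {c : Fin m → ℝ}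
    (hc : c ∈ NL γ P r) {s t S : ℂ[X]} (hst : r = s * t) {β : ℂ}
    (htβ : t.eval β = 0) (hS : Rc γ r c = s * S) (hβ : (P.eval β).im = 0)
    (hβ1 : |(P.eval β).re| ≤ 1) : S.eval β = 0 := by
  by_contra hSβ
  have hr := h.r_ne
  have hs0 : s ≠ 0 := by
    rintro rfl
    exact hr (by rw [hst, zero_mul])
  have ht0 : t ≠ 0 := by
    rintro rfl
    exact hr (by rw [hst, mul_zero])
  have htQ : t * Q ≠ 0 := mul_ne_zero ht0 h.Q_ne
  have hrβ : r.eval β = 0 := by rw [hst, eval_mul, htβ, mul_zero]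
  have hoffβ : ∀ l, (γ l).Off β := fun l => hoff l β hrβ
  obtain ⟨τ, hτ⟩ : ∃ τ : ℝ, P.eval β = τ := ⟨_, Complex.ext rfl hβ⟩
  have hτ1 : |τ| ≤ 1 := by
    rw [hτ, Complex.ofReal_re] at hβ1
    exact hβ1
  have hPc := h.P_sub_ne (P.eval β)
  obtain ⟨U, hU, hUβ⟩ := exists_eq_pow_rootMultiplicity_mul_and_not_dvd _ hPc β
  obtain ⟨V1, hV1, hV1β⟩ := exists_eq_pow_rootMultiplicity_mul_and_not_dvd _ htQ β
  have hmult := h.mult β
  have hmr : rootMultiplicity β r = rootMultiplicity β s + rootMultiplicity β t := by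
    rw [hst, rootMultiplicity_mul (by rw [← hst]; exact hr)]
  have hmt : 0 < rootMultiplicity β t := (rootMultiplicity_pos ht0).2 htβ
  have hmtQ : rootMultiplicity β (t * Q) = rootMultiplicity β t + rootMultiplicity β Q :=
    rootMultiplicity_mul htQ
  rw [hτ] at hU
  rw [hτ] at hmult
  have hcof : 𝓝[≠] β ≤ cofinite := by
    rw [Filter.le_cofinite_iff_compl_singleton_mem]
    intro x
    rcases eq_or_ne x β with rfl | hx
    · exact self_mem_nhdsWithin
    · exact mem_nhdsWithin_of_mem_nhds (isOpen_compl_singleton.mem_nhds hx.symm)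
  have hoffn : ∀ᶠ b in 𝓝 β, ∀ l, (γ l).Off b := (isOpen_off_all γ).mem_nhds hoffβ
  refine no_pole (h := fun b => ((derivative P).eval b)⁻¹ * Jc γ c r b) (c := S.eval β)
    hU (fun h0 => ?_) hV1 (fun h0 => hV1β (dvd_iff_isRoot.2 h0)) (by omega) (by omega) hSβ ?_ ?_ ?_
  · exact hUβ (dvd_iff_isRoot.2 h0)
  · -- the limit
    have hJ0 : ContinuousAt (J0c γ c) β := (hasDerivAt_J0c γ c hoffβ).continuousAt
    have h1 : Tendsto (fun b => t.eval b * J0c γ c b + S.eval b) (𝓝[≠] β) (𝓝 (S.eval β)) := by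
      have h2 : ContinuousAt (fun b => t.eval b * J0c γ c b + S.eval b) β :=
        (t.continuous.continuousAt.mul hJ0).add S.continuous.continuousAt
      have h3 := h2.tendsto
      simp only [htβ, zero_mul, zero_add] at h3
      exact h3.mono_left nhdsWithin_le_nhds
    refine h1.congr' ?_
    filter_upwards [hoffn.filter_mono nhdsWithin_le_nhds, eventually_ne hcof hr,
      eventually_ne hcof h.Q_ne] with b hb hrb hQb
    have h2 := congrArg (Polynomial.eval b) h.der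
    have h3 := congrArg (Polynomial.eval b) hS
    rw [eval_mul] at h2 h3
    have h4 := congrArg (Polynomial.eval b) hst
    rw [eval_mul] at h4
    have hsb : s.eval b ≠ 0 := fun h0 => hrb (by rw [h4, h0, zero_mul])
    have htb : t.eval b ≠ 0 := fun h0 => hrb (by rw [h4, h0, mul_zero])
    rw [Jc_eq γ c r hb, h2, eval_mul]
    change RR (Ic γ c) r = _ at hS
    rw [hS, eval_mul, h4]
    field_simp
  · have hB : {b : ℂ | ∃ x ∈ {t : ℝ | |t| < 1 ∧ t ∉ TTr γ P}, P.eval b = (x : ℝ)}.Finite := by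
      have h1 : {b : ℂ | ∃ x ∈ {t : ℝ | |t| < 1 ∧ t ∉ TTr γ P}, P.eval b = (x : ℝ)} =
          ⋃ x ∈ {t : ℝ | |t| < 1 ∧ t ∉ TTr γ P}, {b : ℂ | P.eval b = (x : ℝ)} := by
        ext b
        simp only [mem_ofPred_eq, mem_iUnion, exists_prop]
      rw [h1]
      refine hfin.biUnion fun x _ => ?_
      refine ((P - C ((x : ℝ) : ℂ)).roots.toFinset.finite_toSet).subset fun b hb => ?_
      rw [Finset.mem_coe, Multiset.mem_toFinset, mem_roots (h.P_sub_ne _), IsRoot.def, eval_sub,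
        eval_C, sub_eq_zero]
      exact hb
    filter_upwards [hcof hB.compl_mem_cofinite] with b hb
    intro x hx hbx
    by_cases hxT : x ∈ TTr γ P
    · exact hc x hxT b hbx
    · exact absurd ⟨x, ⟨hx, hxT⟩, hbx⟩ hb
  · rcases hτ1.lt_or_eq with h1 | h1
    · exact Or.inl h1
    refine Or.inr ⟨h1, ?_⟩
    have hτ2 : (τ : ℂ) ^ 2 = 1 := by
      have h2 : τ ^ 2 = 1 := by rw [← sq_abs, h1, one_pow]
      exact_mod_cast h2
    have h2 : P ^ 2 - 1 = (P - C (τ : ℂ)) * (P + C (τ : ℂ)) := by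
      have h3 : (C (τ : ℂ) : ℂ[X]) ^ 2 = 1 := by rw [← C_pow, hτ2, C_1]
      linear_combination h3
    have h3 : P ^ 2 - 1 = D * Q ^ 2 := by linear_combination h.eq
    have h4 : (P + C (τ : ℂ)).eval β ≠ 0 := by
      rw [eval_add, eval_C, hτ]
      intro h5
      have h6 : (τ : ℂ) = 0 := by linear_combination (1 / 2) * h5
      rw [h6] at hτ2
      norm_num at hτ2
    have hD0 : D ≠ 0 := hD.ne_zero
    have hDQ : D * Q ^ 2 ≠ 0 := mul_ne_zero hD0 (pow_ne_zero 2 h.Q_ne)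
    have h5 : rootMultiplicity β (P ^ 2 - 1) = rootMultiplicity β (P - C (τ : ℂ)) := by
      rw [h2, rootMultiplicity_mul (by rw [← h2, h3]; exact hDQ),
        rootMultiplicity_eq_zero (p := P + C (τ : ℂ)) h4, add_zero]
    have h6 : rootMultiplicity β (P ^ 2 - 1) =
        rootMultiplicity β D + 2 * rootMultiplicity β Q := by
      rw [h3, rootMultiplicity_mul hDQ, rootMultiplicity_pow' h.Q_ne]
    have h7 : rootMultiplicity β D ≤ 1 := by
      by_contra h8
      have h9 : (X - C β) ^ 2 ∣ D :=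
        (pow_dvd_pow _ (by omega)).trans (pow_rootMultiplicity_dvd D β)
      rw [pow_two] at h9
      exact Polynomial.not_isUnit_X_sub_C β (hD _ h9)
    omega

/-- Dividing by one more linear factor decreases the dimension by at most one. -/
theorem Ns_step (hD : Squarefree D) (h : Pell D P Q r)
    (hoff : ∀ l β, r.eval β = 0 → (γ l).Off β)
    (hfin : {t : ℝ | |t| < 1 ∧ t ∉ TTr γ P}.Finite) (s : ℂ[X])
    (β : ℂ) (hsβ : s * (X - C β) ∣ r) :
    (¬ Bad P β → Ns γ P r s ≤ Ns γ P r (s * (X - C β))) ∧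
    finrank ℝ (Ns γ P r s) ≤ finrank ℝ (Ns γ P r (s * (X - C β))) + 1 := by
  obtain ⟨ρ, hρ⟩ := hsβ
  have hst : r = s * ((X - C β) * ρ) := by rw [hρ, mul_assoc]
  have htβ : ((X - C β) * ρ).eval β = 0 := by simp
  obtain ⟨w, hw0, hw1, hw2⟩ := exists_coord h.deg (TTr_infinite γ hfin)
  have hr := h.r_ne
  have hs0 : s ≠ 0 := by
    rintro rfl
    exact hr (by rw [hst, zero_mul])
  have hdvd : ∀ (c : Fin m → ℝ) (S : ℂ[X]), c ∈ NL γ P r →
      Rc γ r c = s * S → S.eval β = 0 → c ∈ Ns γ P r (s * (X - C β)) := by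
    intro c S hc hS hSβ
    refine ⟨hc, ?_⟩
    rw [hS]
    exact mul_dvd_mul_left s (dvd_iff_isRoot.2 hSβ)
  refine ⟨fun hbad c hc => ?_, ?_⟩
  · obtain ⟨hc1, S, hS⟩ := hc
    refine hdvd c S hc1 hS ?_
    by_cases him : (P.eval β).im = 0
    · have hre : |(P.eval β).re| ≤ 1 := by
        by_contra h1
        exact hbad ⟨him, not_le.1 h1⟩
      exact eval_eq_zero_of_abs_le γ hD h hoff hfin hc1 hst htβ hS him hre
    · by_contra hSβ
      have hβ2 : P.eval β ^ 2 ≠ 1 := by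
        intro h1
        have h2 : (P.eval β - 1) * (P.eval β + 1) = 0 := by linear_combination h1
        rcases mul_eq_zero.1 h2 with h3 | h3
        · rw [sub_eq_zero.1 h3] at him
          exact him Complex.one_im
        · rw [eq_neg_of_add_eq_zero_left h3] at him
          simp at him
      have hθ := realTheta γ h hc1
      rw [hS] at hθ
      exact hw0 β him (local_real h hw1 hw2 hβ2 hst htβ hθ hθ hSβ).1
  · by_cases hle : Ns γ P r s ≤ Ns γ P r (s * (X - C β))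
    · exact (Submodule.finrank_mono hle).trans (Nat.le_succ _)
    obtain ⟨c₀, hc₀, hc₀'⟩ := SetLike.not_le_iff_exists.1 hle
    obtain ⟨hc01, S₀, hS₀⟩ := hc₀
    have hS₀β : S₀.eval β ≠ 0 := fun h1 => hc₀' (hdvd c₀ S₀ hc01 hS₀ h1)
    have hβ2 : P.eval β ^ 2 ≠ 1 := by
      intro h1
      have h2 : (P.eval β - 1) * (P.eval β + 1) = 0 := by linear_combination h1
      refine hS₀β (eval_eq_zero_of_abs_le γ hD h hoff hfin hc01 hst htβ hS₀ ?_ ?_)
      · rcases mul_eq_zero.1 h2 with h3 | h3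
        · rw [sub_eq_zero.1 h3]
          exact Complex.one_im
        · rw [eq_neg_of_add_eq_zero_left h3]
          simp
      · rcases mul_eq_zero.1 h2 with h3 | h3
        · rw [sub_eq_zero.1 h3]
          simp
        · rw [eq_neg_of_add_eq_zero_left h3]
          simp
    have hθ0 := realTheta γ h hc01
    rw [hS₀] at hθ0
    have hle2 : Ns γ P r s ≤ Ns γ P r (s * (X - C β)) ⊔ Submodule.span ℝ {c₀} := by
      intro c hc
      obtain ⟨hc1, S, hS⟩ := hc
      have hθ := realTheta γ h hc1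
      rw [hS] at hθ
      obtain ⟨-, lam, hlam⟩ := local_real h hw1 hw2 hβ2 hst htβ hθ0 hθ hS₀β
      have h1 : c - lam • c₀ ∈ Ns γ P r (s * (X - C β)) := by
        refine hdvd _ (S - C (lam : ℂ) * S₀) ?_ ?_ ?_
        · exact Submodule.sub_mem _ hc1 (Submodule.smul_mem _ lam hc01)
        · have h2 : c - lam • c₀ = c + (-lam) • c₀ := by rw [neg_smul, sub_eq_add_neg]
          rw [h2, Rc_add, Rc_smul, hS, hS₀]
          push_cast
          rw [C_neg]
          ring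
        · rw [eval_sub, eval_mul, eval_C, hlam, sub_self]
      have h2 : c = (c - lam • c₀) + lam • c₀ := by rw [sub_add_cancel]
      rw [h2]
      exact Submodule.add_mem_sup h1 (Submodule.smul_mem _ lam (Submodule.mem_span_singleton_self _))
    refine (Submodule.finrank_mono hle2).trans ?_
    refine (Submodule.finrank_add_le_finrank_add_finrank _ _).trans ?_
    have hc₀ne : c₀ ≠ 0 := by
      rintro rfl
      exact hc₀' (Submodule.zero_mem _)
    rw [finrank_span_singleton hc₀ne]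

/-- the dimension of the annihilator -/
theorem finrank_Ns_le [DecidablePred (Bad P)] (hD : Squarefree D) (h : Pell D P Q r)
    (hoff : ∀ l β, r.eval β = 0 → (γ l).Off β)
    (hfin : {t : ℝ | |t| < 1 ∧ t ∉ TTr γ P}.Finite)
    (hind : ∀ c : Fin m → ℝ, c ≠ 0 → ∃ j < r.natDegree, Ic γ c (X ^ j) ≠ 0)
    (M : Multiset ℂ) : ∀ s : ℂ[X], r = C r.leadingCoeff * (s * (M.map fun a => X - C a).prod) →
      finrank ℝ (Ns γ P r s) ≤ Multiset.card (M.filter (Bad P)) := by
  induction M using Multiset.induction_on with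
  | empty =>
    intro s hs
    rw [Multiset.map_zero, Multiset.prod_zero, mul_one] at hs
    have h1 : Ns γ P r s = ⊥ := by
      rw [Submodule.eq_bot_iff]
      intro c hc
      by_contra hc0
      obtain ⟨j, hj, hjc⟩ := hind c hc0
      refine hjc (functional_zero (Ic γ c) r h.r_ne ?_ j hj)
      have h2 : r ∣ Rc γ r c := by
        refine dvd_trans ?_ hc.2
        refine ⟨C r.leadingCoeff⁻¹, ?_⟩
        have h3 := leadingCoeff_ne_zero.2 h.r_ne
        calc s = C (r.leadingCoeff⁻¹ * r.leadingCoeff) * s := by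
              rw [inv_mul_cancel₀ h3, C_1, one_mul]
          _ = C r.leadingCoeff⁻¹ * (C r.leadingCoeff * s) := by rw [C_mul, mul_assoc]
          _ = C r.leadingCoeff⁻¹ * r := by rw [← hs]
          _ = r * C r.leadingCoeff⁻¹ := mul_comm _ _
      exact Polynomial.eq_zero_of_dvd_of_degree_lt h2 (RR_degree _ _ h.r_ne)
    rw [h1, finrank_bot]
    exact Nat.zero_le _
  | cons a M ih =>
    intro s hs
    rw [Multiset.map_cons, Multiset.prod_cons, ← mul_assoc s] at hs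
    have h1 := ih (s * (X - C a)) hs
    have h2 : s * (X - C a) ∣ r := ⟨C r.leadingCoeff * (M.map fun a => X - C a).prod, by
      conv_lhs => rw [hs]
      ring⟩
    obtain ⟨h3, h4⟩ := Ns_step γ hD h hoff hfin s a h2
    by_cases hb : Bad P a
    · rw [Multiset.filter_cons_of_pos _ hb, Multiset.card_cons]
      omega
    · rw [Multiset.filter_cons_of_neg _ hb]
      exact (Submodule.finrank_mono (h3 hb)).trans h1

end

end CoreAux

/-- CORE -/
theorem core : S_CORE := by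
  intro D P Q r M γ _ hD h hoff hfin hind
  have h1 := CoreAux.finrank_Ns_le γ hD h hoff hfin hind r.roots 1 (by
    rw [one_mul]
    exact (IsAlgClosed.splits r).eq_prod_roots)
  have h2 : NL γ P r ≤ CoreAux.Ns γ P r 1 := fun c hc => ⟨hc, one_dvd _⟩
  exact (Submodule.finrank_mono h2).trans h1

end Pool.Agent.N76.SR
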