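import Pool.Agent.N76.SR.Stm

/-! SR/CPL (helper55, project SR of helper76): a complement of a product of subspaces. -/

set_option autoImplicit false

namespace Pool.Agent.N76.SR

open Module

theorem cpl : S_CPL := by
  intro m M R W hR
  obtain ⟨W', hW'⟩ : ∃ W' : Submodule ℝ (Fin m → Fin M → ℝ), W' = Submodule.pi Set.univ W :=
    ⟨_, rfl⟩
  have hmem : ∀ c, c ∈ W' ↔ ∀ a, c a ∈ W a := by
    intro c
    rw [hW', Submodule.mem_pi]
    exact ⟨fun h a => h a (Set.mem_univ a), fun h a _ => h a⟩
  obtain ⟨V, hV⟩ := Submodule.exists_isCompl W'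
  have h1 := Submodule.finrank_add_eq_of_isCompl hV
  have h2 : finrank ℝ (Fin m → Fin M → ℝ) = m * M := by simp [Module.finrank_pi_fintype]
  have h3 : finrank ℝ W' ≤ ∑ a, finrank ℝ (W a) := by
    let f : W' →ₗ[ℝ] ((a : Fin m) → W a) := LinearMap.pi fun a =>
      LinearMap.codRestrict (W a) ((LinearMap.proj a).comp W'.subtype)
        (fun c => (hmem c.1).1 c.2 a)
    have hf : Function.Injective f := by
      intro c c' h
      apply Subtype.ext
      funext a
      have := congrArg (fun g : (a : Fin m) → W a => ((g a : W a) : Fin M → ℝ)) h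
      exact this
    have := LinearMap.finrank_le_finrank_of_injective hf
    rwa [Module.finrank_pi_fintype] at this
  rw [h2] at h1
  refine ⟨V, by omega, fun c hc hcW => ?_⟩
  exact Submodule.disjoint_def.1 hV.disjoint c ((hmem c).2 hcW) hc

end Pool.Agent.N76.SR
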