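import Pool.Agent.N76.SR.Stm

set_option autoImplicit false

/-!
# Project SR, part DER: the nonconstant branch (helper383)
-/

namespace Pool.Agent.N76.SR

open Polynomial MeasureTheory Set Filter Topology Module
open Pool.Agent.Y94.R
open scoped Real

namespace DerAux

variable {D P Q r : ℂ[X]} {M : ℕ} (γ : Fin M → Lp D)

theorem isOpen_TTr (hP : derivative P ≠ 0) : IsOpen (TTr γ P) := by
  have h1 : TTr γ P = TT γ P ∩
      (fun t : ℝ => (t : ℂ)) ⁻¹' ((fun b => P.eval b) '' {b | (derivative P).eval b = 0})ᶜ := by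
    ext t
    constructor
    · rintro ⟨h2, h3⟩
      refine ⟨⟨h2, fun b hb => (h3 b hb).2⟩, ?_⟩
      rintro ⟨b, hb1, hb2⟩
      exact (h3 b hb2).1 hb1
    · rintro ⟨⟨h2, h3⟩, h4⟩
      exact ⟨h2, fun b hb => ⟨fun h5 => h4 ⟨b, h5, hb⟩, h3 b hb⟩⟩
  have h2 : {b : ℂ | (derivative P).eval b = 0}.Finite := Polynomial.finite_setOfPred_isRoot hP
  rw [h1]
  refine (isOpen_TT γ P).inter (IsOpen.preimage Complex.continuous_ofReal ?_)
  exact (h2.image _).isClosed.isOpen_compl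

/-- the branch and its derivative -/
theorem branch (c : Fin M → ℝ) (h : Pell D P Q r) {b₀ : ℂ} (hoff : ∀ l, (γ l).Off b₀) {t₀ : ℝ}
    (hb₀ : P.eval b₀ = t₀) (hr : r.eval b₀ ≠ 0) (hQ : Q.eval b₀ ≠ 0) :
    ∃ (ψ : ℂ → ℂ) (ε : ℝ), 0 < ε ∧ ψ t₀ = b₀ ∧ (∀ t ∈ Metric.ball t₀ ε, P.eval (ψ t) = (t : ℂ)) ∧
      ∀ t ∈ Metric.ball t₀ ε, HasDerivAt (fun t : ℝ => ∑ l, c l * (γ l).rho P Q (ψ t))
        (((derivative P).eval (ψ t))⁻¹ * Jc γ c r (ψ t)).im t := by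
  have hpd := congrArg (Polynomial.eval b₀) h.der
  rw [eval_mul] at hpd
  have hP' : (derivative P).eval b₀ ≠ 0 := by
    rw [hpd]
    exact mul_ne_zero hr hQ
  obtain ⟨ψ, hψ0, hψ⟩ := exists_inverse P hP'
  rw [hb₀] at hψ0 hψ
  have hψc : ContinuousAt ψ (t₀ : ℂ) := (hψ.self_of_nhds.2).continuousAt
  have hnear : ∀ᶠ b in 𝓝 b₀, (∀ l, (γ l).Off b) ∧ r.eval b ≠ 0 ∧ Q.eval b ≠ 0 := by
    have h1 : ∀ᶠ b in 𝓝 b₀, ∀ l, (γ l).Off b := (isOpen_off_all γ).mem_nhds hoff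
    refine h1.and ?_
    exact (r.continuous.continuousAt.eventually_ne hr).and
      (Q.continuous.continuousAt.eventually_ne hQ)
  have hall : ∀ᶠ t in 𝓝 (t₀ : ℂ), ((∀ l, (γ l).Off (ψ t)) ∧ r.eval (ψ t) ≠ 0 ∧
      Q.eval (ψ t) ≠ 0) ∧ P.eval (ψ t) = t ∧
      HasDerivAt ψ ((derivative P).eval (ψ t))⁻¹ t := by
    refine Filter.Eventually.and ?_ hψ
    have h1 := hψc.tendsto
    rw [hψ0] at h1
    exact h1.eventually hnear
  obtain ⟨ε, hε, hball⟩ := Metric.eventually_nhds_iff_ball.1 hall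
  have hcast : ∀ t : ℝ, t ∈ Metric.ball t₀ ε → (t : ℂ) ∈ Metric.ball (t₀ : ℂ) ε := by
    intro t ht
    rw [Metric.mem_ball, Complex.dist_eq, ← Complex.ofReal_sub, Complex.norm_real]
    exact ht
  refine ⟨ψ, ε, hε, hψ0, fun t ht => (hball t (hcast t ht)).2.1, fun t ht => ?_⟩
  obtain ⟨δ, hδ, hsub⟩ := Metric.isOpen_iff.1 Metric.isOpen_ball t ht
  have hsub' : Metric.closedBall t (δ / 2) ⊆ Metric.ball t₀ ε :=
    (Metric.closedBall_subset_ball (half_lt_self hδ)).trans hsub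
  have h1 : ∀ l ∈ Finset.univ, HasDerivAt (fun t : ℝ => c l * (γ l).rho P Q (ψ t))
      (c l * (((derivative P).eval (ψ t))⁻¹ * (γ l).J r (ψ t)).im) t := by
    intro l _
    refine HasDerivAt.const_mul _ ((γ l).hasDerivAt_rho h (half_pos hδ)
      (β := fun t : ℝ => ψ t) (β' := fun t : ℝ => ((derivative P).eval (ψ t))⁻¹)
      (fun s hs => ?_) (fun s hs => ?_) fun s hs => ?_)
    · exact (hball s (hcast s (hsub' hs))).2.2.comp_ofReal
    · have h2 := hball s (hcast s (hsub' hs))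
      have h3 : ContinuousAt (fun t : ℝ => ψ t) s := (h2.2.2.comp_ofReal).continuousAt
      have h4 : ContinuousAt (fun t : ℝ => (derivative P).eval (ψ t)) s :=
        ((derivative P).continuous.continuousAt).comp h3
      refine (h4.inv₀ ?_).continuousWithinAt
      have h5 := congrArg (Polynomial.eval (ψ s)) h.der
      rw [h5, eval_mul]
      exact mul_ne_zero h2.1.2.1 h2.1.2.2
    · exact (hball s (hcast s (hsub' hs))).1.1 l
  have h2 := HasDerivAt.fun_sum h1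
  refine h2.congr_deriv ?_
  unfold Jc
  rw [Finset.mul_sum, Complex.im_sum]
  refine Finset.sum_congr rfl fun l _ => ?_
  rw [show ((derivative P).eval (ψ t))⁻¹ * ((c l : ℂ) * (γ l).J r (ψ t)) =
    (c l : ℂ) * (((derivative P).eval (ψ t))⁻¹ * (γ l).J r (ψ t)) by ring,
    Complex.im_ofReal_mul]

end DerAux

/-- DER -/
theorem der : S_DER := by
  intro D P Q r M γ h c hc
  have hc' : ¬ Loc γ P r c := hc
  unfold Loc at hc'
  push Not at hc'
  obtain ⟨t₀, ht₀, b₀, hb₀, him⟩ := hc'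
  obtain ⟨hP', hoff⟩ := ht₀.2 b₀ hb₀
  have hpd := congrArg (Polynomial.eval b₀) h.der
  rw [eval_mul] at hpd
  have hr : r.eval b₀ ≠ 0 := fun h0 => hP' (by rw [hpd, h0, zero_mul])
  have hQ : Q.eval b₀ ≠ 0 := fun h0 => hP' (by rw [hpd, h0, mul_zero])
  have hP0 : derivative P ≠ 0 := fun h0 => hP' (by rw [h0, eval_zero])
  obtain ⟨ψ, ε, hε, hψ0, hψ1, hder⟩ := DerAux.branch γ c h hoff hb₀ hr hQ
  have hopen := DerAux.isOpen_TTr γ hP0
  have hmem : TTr γ P ∩ Metric.ball t₀ ε ∈ 𝓝 t₀ :=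
    inter_mem (hopen.mem_nhds ht₀) (Metric.ball_mem_nhds t₀ hε)
  obtain ⟨δ, hδ, hsub⟩ := Metric.nhds_basis_closedBall.mem_iff.1 hmem
  rw [Real.closedBall_eq_Icc] at hsub
  refine ⟨t₀ - δ, t₀ + δ, fun t => ψ t, by linarith, fun t ht => (hsub ht).1,
    fun t ht => hψ1 t (hsub ht).2, ?_⟩
  have hcont : ContinuousOn (fun t : ℝ => ∑ l, c l * (γ l).rho P Q (ψ t))
      (Icc (t₀ - δ) (t₀ + δ)) := fun t ht =>
    (hder t (hsub ht).2).continuousAt.continuousWithinAt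
  refine (isPreconnected_Icc.image _ hcont).infinite_of_nontrivial ?_
  by_contra hnt
  rw [Set.not_nontrivial_iff] at hnt
  have ht₀I : t₀ ∈ Icc (t₀ - δ) (t₀ + δ) := ⟨by linarith, by linarith⟩
  have hnb : Icc (t₀ - δ) (t₀ + δ) ∈ 𝓝 t₀ := Icc_mem_nhds (by linarith) (by linarith)
  have h1 : HasDerivAt (fun t : ℝ => ∑ l, c l * (γ l).rho P Q (ψ t)) 0 t₀ := by
    refine (hasDerivAt_const t₀ (∑ l, c l * (γ l).rho P Q (ψ t₀))).congr_of_eventuallyEq ?_
    filter_upwards [hnb] with t ht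
    exact hnt (mem_image_of_mem _ ht) (mem_image_of_mem _ ht₀I)
  have h2 := (hder t₀ (Metric.mem_ball_self hε)).unique h1
  rw [hψ0] at h2
  exact him h2

end Pool.Agent.N76.SR

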