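import Pool.Agent.N76.SR.Stm

set_option autoImplicit false

/-!
# Project SR: one relation
-/

namespace Pool.Agent.N76.SR

open Polynomial MeasureTheory Set Filter Topology Module
open Pool.Agent.Y94.R
open scoped Real

namespace GoodAux

/-- the fibre as a finite set -/
theorem mem_roots' {P : ℂ[X]} (hP : 0 < P.natDegree) (t b : ℂ) :
    b ∈ (P - C t).roots.toFinset ↔ P.eval b = t := by
  have h0 : P - C t ≠ 0 := by
    intro h
    have h1 := congrArg natDegree h
    rw [natDegree_sub_C, natDegree_zero] at h1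
    omega
  rw [Multiset.mem_toFinset, mem_roots h0, IsRoot.def, eval_sub, eval_C, sub_eq_zero]

theorem fib_finite {P : ℂ[X]} (hP : 0 < P.natDegree) (t : ℂ) : {b : ℂ | P.eval b = t}.Finite := by
  refine ((P - C t).roots.toFinset.finite_toSet).subset fun b hb => ?_
  exact (mem_roots' hP t b).2 hb

theorem fib_surj {P : ℂ[X]} {n : ℕ} (hn : P.natDegree = n) (h0 : 0 < n) (t : ℂ) (x : Fin n → ℂ)
    (hx : Function.Injective x) (hxt : ∀ k, P.eval (x k) = t) (b : ℂ) (hb : P.eval b = t) :
    ∃ k, x k = b := by
  classical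
  have hP : 0 < P.natDegree := by omega
  have h1 : Finset.univ.image x ⊆ (P - C t).roots.toFinset := by
    intro y hy
    obtain ⟨k, -, rfl⟩ := Finset.mem_image.1 hy
    exact (mem_roots' hP t _).2 (hxt k)
  have h2 : (P - C t).roots.toFinset.card ≤ (Finset.univ.image x).card := by
    rw [Finset.card_image_of_injective _ hx, Finset.card_univ, Fintype.card_fin]
    refine (Multiset.toFinset_card_le _).trans ((card_roots' _).trans ?_)
    rw [natDegree_sub_C, hn]
  have h3 := Finset.eq_of_subset_of_card_le h1 h2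
  have h4 := (mem_roots' hP t b).2 hb
  rw [← h3, Finset.mem_image] at h4
  obtain ⟨k, -, hk⟩ := h4
  exact ⟨k, hk⟩

theorem cos_arccos_div {t : ℝ} (ht : |t| < 1) : Real.cos (2 * π * (Real.arccos t / (2 * π))) = t := by
  have h1 : 2 * π * (Real.arccos t / (2 * π)) = Real.arccos t := by
    have : (2 * π : ℝ) ≠ 0 := by positivity
    field_simp
  rw [h1, Real.cos_arccos (by linarith [(abs_lt.1 ht).1]) (abs_lt.1 ht).2.le]

end GoodAux

open GoodAux

/-- **GOOD**: one relation. -/
theorem good (hDER : S_DER) : S_GOOD := by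
  classical
  intro m M n D P Q r γ hPell hdeg hn hne c hc hNL
  choose t ht using hne
  by_cases h0 : c.1 = 0
  · have h2 : c.2 ≠ 0 := fun h => hc (Prod.ext h0 h)
    refine ⟨fun a => Real.arccos (t a) / (2 * π), fun a => ?_, fun x _ _ => ⟨⟨0, hn⟩, ?_⟩⟩
    · rw [cos_arccos_div (ht a).1]
      exact ht a
    · unfold Lk
      rw [h0]
      simp only [Pi.zero_apply, zero_mul, Finset.sum_const_zero]
      exact h2.symm
  · have h1 : ¬ ∀ a, c.1 a ∈ NL (γ a) (P a) (r a) := fun h => h0 (hNL h)
    push Not at h1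
    obtain ⟨a₀, ha₀⟩ := h1
    obtain ⟨a₁, a₂, ψ, h12, hT, hψ, hinf⟩ := hDER (γ a₀) (hPell a₀) (c.1 a₀) ha₀
    by_contra hcon
    push Not at hcon
    apply hinf
    set F : Fin m → Set ℂ := fun a => if a = a₀ then {0} else {b | (P a).eval b = (t a : ℝ)} with hF
    have hFf : ∀ a, (F a).Finite := by
      intro a
      simp only [hF]
      split_ifs with h
      · exact finite_singleton 0
      · exact fib_finite (by rw [hdeg a]; exact hn) _
    set Φ : (Fin m → ℂ) → ℝ := fun y => c.2 - ∑ a ∈ Finset.univ.erase a₀,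
      ∑ l, c.1 a l * (γ a l).rho (P a) (Q a) (y a) with hΦ
    refine ((Set.Finite.pi' hFf).image Φ).subset ?_
    rintro _ ⟨s, hs, rfl⟩
    set τ : Fin m → ℝ := Function.update t a₀ s with hτ
    have hτT : ∀ a, τ a ∈ TTr (γ a) (P a) := by
      intro a
      by_cases ha : a = a₀
      · subst ha
        rw [hτ, Function.update_self]
        exact hT s hs
      · rw [hτ, Function.update_of_ne ha]
        exact ht a
    have hcos : ∀ a, Real.cos (2 * π * (Real.arccos (τ a) / (2 * π))) = τ a := fun a =>
      cos_arccos_div (hτT a).1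
    have hng := hcon fun a => Real.arccos (τ a) / (2 * π)
    unfold Good at hng
    simp only [hcos] at hng
    push Not at hng
    obtain ⟨x, hxi, hxf, hxk⟩ := hng hτT
    obtain ⟨k, hk⟩ := fib_surj (hdeg a₀) hn ((s : ℝ) : ℂ) (x a₀) (hxi a₀) (fun k => by
      rw [hxf a₀ k, hτ, Function.update_self]) (ψ s) (hψ s hs)
    refine ⟨Function.update (fun a => x a k) a₀ 0, ?_, ?_⟩
    · intro a
      simp only [hF]
      by_cases ha : a = a₀
      · rw [if_pos ha, ha, Function.update_self]
        exact mem_singleton 0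
      · rw [if_neg ha, Function.update_of_ne ha]
        have := hxf a k
        rw [hτ, Function.update_of_ne ha] at this
        exact this
    · have h3 := hxk k
      unfold Lk at h3
      rw [← Finset.add_sum_erase _ _ (Finset.mem_univ a₀), hk] at h3
      have h4 : ∑ a ∈ Finset.univ.erase a₀, ∑ l, c.1 a l * (γ a l).rho (P a) (Q a)
          (Function.update (fun a => x a k) a₀ 0 a) =
          ∑ a ∈ Finset.univ.erase a₀, ∑ l, c.1 a l * (γ a l).rho (P a) (Q a) (x a k) := by
        refine Finset.sum_congr rfl fun a ha => ?_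
        rw [Function.update_of_ne (Finset.ne_of_mem_erase ha)]
      simp only [hΦ]
      rw [h4, ← h3]
      ring

end Pool.Agent.N76.SR
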