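import Pool.Agent.N76.SR.Stm

set_option autoImplicit false

/-!
# Project SR: compactness and density (S_INT)
-/

namespace Pool.Agent.N76.SR

open Polynomial MeasureTheory Set Filter Topology Module
open Pool.Agent.Y94.R
open scoped Real

namespace IntAux

variable {m M n : ℕ} {D : Fin m → ℂ[X]} (γ : ∀ a, Fin M → Lp (D a)) (P Q : Fin m → ℂ[X])

theorem Lk_smul (y : ℝ) (c : Fin m → Fin M → ℝ) (x : Fin m → Fin n → ℂ) (k : Fin n) :
    Lk γ P Q (y • c) x k = y * Lk γ P Q c x k := by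
  unfold Lk
  rw [Finset.mul_sum]
  refine Finset.sum_congr rfl fun a _ => ?_
  rw [Finset.mul_sum]
  refine Finset.sum_congr rfl fun l _ => ?_
  show y * c a l * _ = _
  ring

theorem good_of_smul {y : ℝ} {c : (Fin m → Fin M → ℝ) × ℝ} {θ : Fin m → ℝ}
    (h : Good γ P Q n (y • c) θ) : Good γ P Q n c θ := by
  refine ⟨h.1, fun x hx hx' => ?_⟩
  obtain ⟨k, hk⟩ := h.2 x hx hx'
  refine ⟨k, fun h1 => hk ?_⟩
  show Lk γ P Q (y • c.1) x k = y • c.2
  rw [Lk_smul, h1, smul_eq_mul]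

end IntAux

open IntAux in
theorem int_ (hGOOD : S_GOOD) (hOPEN : S_OPEN) : S_INT := by
  classical
  intro m M n D P Q r γ hPell hdeg hn hne V hV p hp
  set S : Set ((Fin m → Fin M → ℝ) × ℝ) := {c | c.1 ∈ V} ∩ Metric.sphere 0 1 with hS
  have hclosed : IsClosed {c : (Fin m → Fin M → ℝ) × ℝ | c.1 ∈ V} :=
    (Submodule.closed_of_finiteDimensional V).preimage continuous_fst
  have hcomp : IsCompact S := (isCompact_sphere _ _).inter_left hclosed
  have key : ∃ δ : ℝ, 0 < δ ∧ ∀ c ∈ S, ∃ x : Fin m → ℝ,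
      ∀ x' : Fin m → ℝ, (∀ a, |x' a - x a| < δ) → Good γ P Q n c x' := by
    refine IsCompact.induction_on hcomp
      (p := fun S => ∃ δ : ℝ, 0 < δ ∧ ∀ c ∈ S, ∃ x : Fin m → ℝ,
        ∀ x' : Fin m → ℝ, (∀ a, |x' a - x a| < δ) → Good γ P Q n c x') ?_ ?_ ?_ ?_
    · exact ⟨1, one_pos, fun c hc => hc.elim⟩
    · rintro S S' hSS ⟨δ, hδ, h⟩
      exact ⟨δ, hδ, fun c hc => h c (hSS hc)⟩
    · rintro S S' ⟨δ, hδ, h⟩ ⟨δ', hδ', h'⟩
      refine ⟨min δ δ', lt_min hδ hδ', ?_⟩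
      rintro c (hc | hc)
      · obtain ⟨x, hx⟩ := h c hc
        exact ⟨x, fun x' hx' => hx x' fun a => (hx' a).trans_le (min_le_left _ _)⟩
      · obtain ⟨x, hx⟩ := h' c hc
        exact ⟨x, fun x' hx' => hx x' fun a => (hx' a).trans_le (min_le_right _ _)⟩
    · intro c hcS
      have hc0 : c ≠ 0 := by
        rintro rfl
        have h1 := hcS.2
        simp at h1
      obtain ⟨x, hx⟩ := hGOOD γ hPell hdeg hn hne c hc0 (fun h => hV c.1 hcS.1 h)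
      obtain ⟨δ, hδ, hball⟩ := Metric.eventually_nhds_iff.1 (hOPEN γ hPell hdeg hn c x hx)
      refine ⟨Metric.ball c δ, mem_nhdsWithin_of_mem_nhds (Metric.ball_mem_nhds c hδ), δ, hδ,
        fun c' hc' => ⟨x, fun x' hx' => ?_⟩⟩
      refine hball (y := (c', x')) ?_
      rw [Prod.dist_eq, max_lt_iff]
      refine ⟨hc', ?_⟩
      rw [dist_pi_lt_iff hδ]
      intro a
      rw [Real.dist_eq]
      exact hx' a
  obtain ⟨δ, hδ, h⟩ := key
  obtain ⟨k, N₀, hN⟩ := Pool.Agent.N76.IR.exists_dense hp m hδ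
  refine ⟨k, N₀, fun N hNN c hcV hc0 => ?_⟩
  have hn0 : 0 < ‖c‖ := norm_pos_iff.2 hc0
  obtain ⟨x, hx⟩ := h (‖c‖⁻¹ • c) ⟨V.smul_mem _ hcV, by
    rw [mem_sphere_zero_iff_norm, norm_smul, norm_inv, norm_norm, inv_mul_cancel₀ hn0.ne']⟩
  obtain ⟨j, i, hj⟩ := hN N hNN x
  exact ⟨j, i, good_of_smul γ P Q (hx _ fun a => hj a)⟩

end Pool.Agent.N76.SR
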