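import Pool.Agent.N76.SR.Stm

/-!
# SR/LIN: linearly independent differences (helper123)
-/

set_option autoImplicit false

namespace Pool.Agent.N76.SR

open Polynomial MeasureTheory Set Filter Topology Module
open scoped Real

namespace LinAux

/-- the pairing of two double vectors -/
noncomputable def pair {m M : ℕ} :
    (Fin m → Fin M → ℝ) →ₗ[ℝ] (Fin m → Fin M → ℝ) →ₗ[ℝ] ℝ :=
  LinearMap.mk₂ ℝ (fun c u => ∑ a, ∑ l, c a l * u a l)
    (by
      intro c c' u
      simp only [Pi.add_apply, add_mul, Finset.sum_add_distrib])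
    (by
      intro x c u
      simp only [Pi.smul_apply, smul_eq_mul, Finset.mul_sum, mul_assoc])
    (by
      intro c u u'
      simp only [Pi.add_apply, mul_add, Finset.sum_add_distrib])
    (by
      intro x c u
      simp only [Pi.smul_apply, smul_eq_mul, Finset.mul_sum]
      refine Finset.sum_congr rfl fun a _ => Finset.sum_congr rfl fun l _ => ?_
      ring)

theorem pair_apply {m M : ℕ} (c u : Fin m → Fin M → ℝ) :
    pair c u = ∑ a, ∑ l, c a l * u a l := rfl

/-- linearly independent members of a set whose span has large dimension -/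
theorem exists_indep_range {α E : Type*} [AddCommGroup E] [Module ℝ E] [FiniteDimensional ℝ E]
    (w : α → E) {R : ℕ} (hR : R ≤ finrank ℝ (Submodule.span ℝ (Set.range w))) :
    ∃ β : Fin R → α, LinearIndependent ℝ fun j => w (β j) := by
  classical
  obtain ⟨B, hBt, hBspan, hB⟩ := exists_linearIndependent (K := ℝ) (t := Set.range w)
  have hBfin : Finite B := hB.finite
  have : Fintype B := Fintype.ofFinite B
  have h4 : finrank ℝ (Submodule.span ℝ (Set.range w)) = Fintype.card B := by
    have h5 := finrank_span_eq_card (R := ℝ) hB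
    rw [Subtype.range_coe] at h5
    rw [← hBspan, h5]
  rw [h4] at hR
  obtain ⟨e⟩ : Nonempty (Fin R ↪ B) := by
    refine Function.Embedding.nonempty_of_card_le ?_
    rwa [Fintype.card_fin]
  choose b hb2 using fun j : Fin R => hBt (e j).2
  refine ⟨b, ?_⟩
  have h5 : (fun j => w (b j)) = (fun x : B => (x : E)) ∘ e := by
    funext j
    exact hb2 j
  rw [h5]
  exact hB.comp e e.injective

end LinAux

open LinAux in
theorem lin : S_LIN := by
  intro m M R α v x₀ V hR hV
  refine exists_indep_range (fun x => v x - v x₀) (hR.trans ?_)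
  set U : Submodule ℝ (Fin m → Fin M → ℝ) := Submodule.span ℝ (Set.range fun x => v x - v x₀)
    with hU
  let φ : V →ₗ[ℝ] Module.Dual ℝ U := (LinearMap.lcomp ℝ ℝ U.subtype).comp (pair.comp V.subtype)
  have hφ : ∀ (c : V) (u : U), φ c u = pair (c : Fin m → Fin M → ℝ) (u : Fin m → Fin M → ℝ) :=
    fun _ _ => rfl
  have hinj : Function.Injective φ := by
    rw [← LinearMap.ker_eq_bot, LinearMap.ker_eq_bot']
    intro c hc
    apply Subtype.ext
    refine hV c c.2 fun x => ?_
    have h1 : v x - v x₀ ∈ U := Submodule.subset_span ⟨x, rfl⟩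
    have h2 := hφ c ⟨v x - v x₀, h1⟩
    rw [hc, pair_apply] at h2
    exact h2.symm
  have h3 := LinearMap.finrank_le_finrank_of_injective hinj
  rwa [Subspace.dual_finrank_eq] at h3

end Pool.Agent.N76.SR
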