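import Pool.Agent.N76.SR.Stm

set_option autoImplicit false

/-!
# Project SR: openness

Written by helper432 for project SR of helper76.
-/

namespace Pool.Agent.N76.SR

open Polynomial MeasureTheory Set Filter Topology Module
open Pool.Agent.Y94.R
open scoped Real

theorem opn (hSEC : S_SEC) (hRHO : S_RHO) : S_OPEN := by
  classical
  intro m M n D P Q r γ hPell hdeg hn c θ hG
  obtain ⟨hT, hx⟩ := hG
  have hsec : ∀ a, ∃ ψ : Fin n → ℝ → ℂ, (∀ i, ContinuousAt (ψ i) (Real.cos (2 * π * θ a))) ∧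
      ∀ᶠ t in 𝓝 (Real.cos (2 * π * θ a)), t ∈ TTr (γ a) (P a) ∧
        (Function.Injective fun i => ψ i t) ∧ (∀ i, (P a).eval (ψ i t) = (t : ℝ)) ∧
        ∀ b : ℂ, (P a).eval b = (t : ℝ) → ∃ i, b = ψ i t := fun a =>
    hSEC (γ a) (hdeg a) hn _ (hT a)
  choose ψ hψc hψe using hsec
  have hTc : ∀ a, ContinuousAt (fun q : ((Fin m → Fin M → ℝ) × ℝ) × (Fin m → ℝ) =>
      Real.cos (2 * π * q.2 a)) (c, θ) := by
    intro a
    refine Continuous.continuousAt ?_
    exact Real.continuous_cos.comp (continuous_const.mul ((continuous_apply a).comp continuous_snd))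
  have h1 : ∀ᶠ q : ((Fin m → Fin M → ℝ) × ℝ) × (Fin m → ℝ) in 𝓝 (c, θ), ∀ a,
      Real.cos (2 * π * q.2 a) ∈ TTr (γ a) (P a) ∧
      (Function.Injective fun i => ψ a i (Real.cos (2 * π * q.2 a))) ∧
      (∀ i, (P a).eval (ψ a i (Real.cos (2 * π * q.2 a))) = ((Real.cos (2 * π * q.2 a) : ℝ) : ℂ)) ∧
      ∀ b : ℂ, (P a).eval b = ((Real.cos (2 * π * q.2 a) : ℝ) : ℂ) →
        ∃ i, b = ψ a i (Real.cos (2 * π * q.2 a)) := by
    rw [eventually_all]
    intro a
    exact (hTc a).eventually (hψe a)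
  have h0 := h1.self_of_nhds
  have h3 : ∀ ρ : {ρ : Fin m → Fin n → Fin n // ∀ a, Function.Injective (ρ a)},
      ∀ᶠ q : ((Fin m → Fin M → ℝ) × ℝ) × (Fin m → ℝ) in 𝓝 (c, θ),
        ∃ k, Lk γ P Q q.1.1 (fun a k => ψ a (ρ.1 a k) (Real.cos (2 * π * q.2 a))) k ≠ q.1.2 := by
    intro ρ
    obtain ⟨k, hk⟩ := hx (fun a k => ψ a (ρ.1 a k) (Real.cos (2 * π * θ a)))
      (fun a => (h0 a).2.1.comp (ρ.2 a)) (fun a k => (h0 a).2.2.1 _)
    have h4 : ContinuousAt (fun q : ((Fin m → Fin M → ℝ) × ℝ) × (Fin m → ℝ) =>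
        Lk γ P Q q.1.1 (fun a k => ψ a (ρ.1 a k) (Real.cos (2 * π * q.2 a))) k) (c, θ) := by
      unfold Lk
      refine tendsto_finsetSum _ fun a _ => tendsto_finsetSum _ fun l _ => ?_
      refine Filter.Tendsto.mul ?_ ?_
      · exact (((continuous_apply l).comp ((continuous_apply a).comp
          (continuous_fst.comp continuous_fst))).continuousAt (x := (c, θ)))
      · have hoff : (γ a l).Off (ψ a (ρ.1 a k) (Real.cos (2 * π * θ a))) :=
          ((hT a).2 _ ((h0 a).2.2.1 _)).2 l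
        have h5 : ContinuousAt ((γ a l).rho (P a) (Q a)) (ψ a (ρ.1 a k) (Real.cos (2 * π * θ a))) :=
          hRHO (γ a l) (hPell a) _ hoff
        have h6 : ContinuousAt (fun q : ((Fin m → Fin M → ℝ) × ℝ) × (Fin m → ℝ) =>
            ψ a (ρ.1 a k) (Real.cos (2 * π * q.2 a))) (c, θ) :=
          ContinuousAt.comp (f := fun q : ((Fin m → Fin M → ℝ) × ℝ) × (Fin m → ℝ) =>
            Real.cos (2 * π * q.2 a)) (g := ψ a (ρ.1 a k)) (hψc a _) (hTc a)
        exact ContinuousAt.comp (f := fun q : ((Fin m → Fin M → ℝ) × ℝ) × (Fin m → ℝ) =>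
            ψ a (ρ.1 a k) (Real.cos (2 * π * q.2 a))) (g := (γ a l).rho (P a) (Q a)) h5 h6
    have h5 : ContinuousAt (fun q : ((Fin m → Fin M → ℝ) × ℝ) × (Fin m → ℝ) => q.1.2) (c, θ) :=
      (continuous_snd.comp continuous_fst).continuousAt
    filter_upwards [(h4.sub h5).eventually_ne (sub_ne_zero.2 hk)] with q hq
    exact ⟨k, sub_ne_zero.1 hq⟩
  have h4 := eventually_all.2 h3
  filter_upwards [h1, h4] with q hq1 hq2
  refine ⟨fun a => (hq1 a).1, fun x hxi hxe => ?_⟩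
  have hex : ∀ a k, ∃ i, x a k = ψ a i (Real.cos (2 * π * q.2 a)) := fun a k =>
    (hq1 a).2.2.2 (x a k) (hxe a k)
  choose ρ hρ using hex
  have hρi : ∀ a, Function.Injective (ρ a) := by
    intro a k k' hkk
    apply hxi a
    rw [hρ, hρ, hkk]
  obtain ⟨k, hk⟩ := hq2 ⟨ρ, hρi⟩
  refine ⟨k, ?_⟩
  have hxeq : x = fun a k => ψ a (ρ a k) (Real.cos (2 * π * q.2 a)) := by
    funext a k
    exact hρ a k
  rw [hxeq]
  exact hk

end Pool.Agent.N76.SR
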