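import Pool.Agent.N76.SR.Stm

/-!
Project SR (helper76), part RHO (helper700): continuity of the regulator integral off the loop.
-/

set_option autoImplicit false

namespace Pool.Agent.N76.SR

open Polynomial Pool.Agent.Y94.R

namespace RhoAux

theorem integrand_cont {D P Q r : ℂ[X]} (γ : Lp D) (h : Pell D P Q r) :
    Continuous (Function.uncurry fun (b : {b : ℂ | γ.Off b}) (s : ℝ) =>
      Real.log ‖γ.z P Q s‖ * (deriv γ.x s / (γ.x s - b)).im -
        Real.log ‖γ.x s - b‖ * (deriv (γ.z P Q) s / γ.z P Q s).im) := by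
  have hz0 := γ.z_ne h
  have hlz : Continuous fun s => Real.log ‖γ.z P Q s‖ :=
    Continuous.log (γ.continuous_z (P := P) (Q := Q)).norm fun s => norm_ne_zero_iff.2 (hz0 s)
  have hdz := γ.continuous_dz (r := r)
  have hdx := γ.continuous_dx
  have hxb : Continuous fun p : {b : ℂ | γ.Off b} × ℝ => γ.x p.2 - (p.1 : ℂ) :=
    (γ.continuous_x.comp continuous_snd).sub (continuous_subtype_val.comp continuous_fst)
  have hne : ∀ p : {b : ℂ | γ.Off b} × ℝ, γ.x p.2 - (p.1 : ℂ) ≠ 0 := fun p => p.1.2 p.2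
  have e : (Function.uncurry fun (b : {b : ℂ | γ.Off b}) (s : ℝ) =>
      Real.log ‖γ.z P Q s‖ * (deriv γ.x s / (γ.x s - b)).im -
        Real.log ‖γ.x s - b‖ * (deriv (γ.z P Q) s / γ.z P Q s).im) =
      fun p : {b : ℂ | γ.Off b} × ℝ => Real.log ‖γ.z P Q p.2‖ *
        (deriv γ.x p.2 / (γ.x p.2 - (p.1 : ℂ))).im -
        Real.log ‖γ.x p.2 - (p.1 : ℂ)‖ * (γ.dz r p.2).im := by
    funext p
    simp only [Function.uncurry, γ.deriv_z h]
  rw [e]
  exact ((hlz.comp continuous_snd).mul (Complex.continuous_im.comp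
    ((hdx.comp continuous_snd).div hxb hne))).sub
    ((Continuous.log hxb.norm fun p => norm_ne_zero_iff.2 (hne p)).mul
      (Complex.continuous_im.comp (hdz.comp continuous_snd)))

end RhoAux

theorem rho_cont : S_RHO := by
  intro D P Q r γ h b hb
  have hopen : IsOpen {b : ℂ | γ.Off b} := γ.isOpen_off
  have : LocallyCompactSpace {b : ℂ | γ.Off b} := hopen.locallyCompactSpace
  have hcont : Continuous (fun b : {b : ℂ | γ.Off b} => γ.rho P Q (b : ℂ)) := by
    unfold Lp.rho
    exact intervalIntegral.continuous_parametric_intervalIntegral_of_continuous'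
      (RhoAux.integrand_cont γ h) 0 1
  exact (hopen.isOpenEmbedding_subtypeVal.continuousAt_iff (x := ⟨b, hb⟩)).1 hcont.continuousAt

end Pool.Agent.N76.SR
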