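import Pool.Agent.N76.SR.Stm

set_option autoImplicit false

/-!
# Project SR: continuous numberings of the fibres
-/

namespace Pool.Agent.N76.SR

open Polynomial MeasureTheory Set Filter Topology Module
open Pool.Agent.Y94.R
open scoped Real

namespace SecAux

theorem deriv_ne {P : ℂ[X]} (h : 0 < P.natDegree) : derivative P ≠ 0 := by
  intro h0
  have := derivative_eq_zero.1 h0
  omega

theorem isOpen_TTr {D : ℂ[X]} {M : ℕ} (γ : Fin M → Lp D) {P : ℂ[X]} (h : 0 < P.natDegree) :
    IsOpen (TTr γ P) := by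
  have h1 : TTr γ P = TT γ P ∩ (fun t : ℝ => (t : ℂ)) ⁻¹'
      ((fun b => P.eval b) '' {b | (derivative P).eval b = 0})ᶜ := by
    ext t
    simp only [TTr, TT, mem_ofPred_eq, mem_inter_iff, mem_preimage, mem_compl_iff, mem_image,
      not_exists, not_and]
    constructor
    · rintro ⟨h1, h2⟩
      exact ⟨⟨h1, fun b hb => (h2 b hb).2⟩, fun b hb hPb => (h2 b hPb).1 hb⟩
    · rintro ⟨⟨h1, h2⟩, h3⟩
      exact ⟨h1, fun b hb => ⟨fun hd => h3 b hd hb, h2 b hb⟩⟩
  rw [h1]
  refine (isOpen_TT γ P).inter (IsOpen.preimage Complex.continuous_ofReal ?_)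
  have hfin : {b | (derivative P).eval b = 0}.Finite := by
    refine (derivative P).roots.toFinset.finite_toSet.subset ?_
    intro b hb
    rw [Finset.mem_coe, Multiset.mem_toFinset, mem_roots (deriv_ne h)]
    exact hb
  exact (hfin.image _).isClosed.isOpen_compl

theorem sub_ne {P : ℂ[X]} (h : 0 < P.natDegree) (w : ℂ) : P - C w ≠ 0 := by
  intro h0
  have h1 : (P - C w).natDegree = 0 := by rw [h0, natDegree_zero]
  rw [natDegree_sub_C] at h1
  omega

theorem card_le {P : ℂ[X]} {n : ℕ} (hdeg : P.natDegree = n) (w : ℂ) :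
    (P - C w).roots.toFinset.card ≤ n := by
  refine (Multiset.toFinset_card_le _).trans ((card_roots' _).trans ?_)
  rw [natDegree_sub_C, hdeg]

theorem mem_fib {P : ℂ[X]} (h : 0 < P.natDegree) (w b : ℂ) :
    b ∈ (P - C w).roots.toFinset ↔ P.eval b = w := by
  rw [Multiset.mem_toFinset, mem_roots (sub_ne h w), IsRoot.def, eval_sub, eval_C, sub_eq_zero]

theorem fibre {P : ℂ[X]} {n : ℕ} (hn : 0 < n) (hdeg : P.natDegree = n) {w : ℂ}
    (hw : ∀ b, P.eval b = w → (derivative P).eval b ≠ 0) :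
    ∃ x : Fin n → ℂ, Function.Injective x ∧ ∀ i, P.eval (x i) = w := by
  classical
  have hpos : 0 < P.natDegree := by omega
  have hdegu : (P - C w).natDegree = n := by rw [natDegree_sub_C, hdeg]
  have hcard : (P - C w).roots.card = n := by
    rw [← hdegu]
    exact (IsAlgClosed.splits _).natDegree_eq_card_roots.symm
  have hnodup : (P - C w).roots.Nodup := by
    rw [Multiset.nodup_iff_count_le_one]
    intro x
    rw [count_roots]
    by_contra hcon
    push Not at hcon
    have h1 := (one_lt_rootMultiplicity_iff_isRoot (sub_ne hpos w)).1 hcon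
    have h2 : (derivative P).eval x = 0 := by
      have := h1.2
      rw [derivative_sub, derivative_C, sub_zero] at this
      exact this
    have h3 : P.eval x = w := by
      have := h1.1
      rw [IsRoot.def, eval_sub, eval_C, sub_eq_zero] at this
      exact this
    exact hw x h3 h2
  obtain ⟨S, hS⟩ : ∃ S, S = (P - C w).roots.toFinset := ⟨_, rfl⟩
  have hSc : S.card = n := by
    rw [hS, Multiset.toFinset_card_of_nodup hnodup, hcard]
  have hSr : ∀ y ∈ S, P.eval y = w := by
    intro y hy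
    rw [hS] at hy
    exact (mem_fib hpos w y).1 hy
  exact ⟨fun i => ((S.equivFinOfCardEq hSc).symm i : ℂ), fun i j hij =>
    (S.equivFinOfCardEq hSc).symm.injective (Subtype.ext hij), fun i =>
    hSr _ ((S.equivFinOfCardEq hSc).symm i).2⟩

/-- a numbering of different points of the fibre contains all of them -/
theorem all {P : ℂ[X]} {n : ℕ} (hn : 0 < n) (hdeg : P.natDegree = n) {w : ℂ} {x : Fin n → ℂ}
    (hx : Function.Injective x) (hxw : ∀ i, P.eval (x i) = w) {b : ℂ} (hb : P.eval b = w) :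
    ∃ i, b = x i := by
  classical
  have hpos : 0 < P.natDegree := by omega
  have h1 : Finset.univ.image x ⊆ (P - C w).roots.toFinset := by
    intro y hy
    rw [Finset.mem_image] at hy
    obtain ⟨i, _, rfl⟩ := hy
    exact (mem_fib hpos w _).2 (hxw i)
  have h2 : (Finset.univ.image x).card = n := by
    rw [Finset.card_image_of_injective _ hx, Finset.card_univ, Fintype.card_fin]
  have h3 := Finset.eq_of_subset_of_card_le h1 (by rw [h2]; exact card_le hdeg w)
  have h4 := (mem_fib hpos w b).2 hb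
  rw [← h3, Finset.mem_image] at h4
  obtain ⟨i, _, hi⟩ := h4
  exact ⟨i, hi.symm⟩

end SecAux

open SecAux in
/-- **SEC** -/
theorem sec : S_SEC := by
  intro D P M n γ hdeg hn t₀ ht₀
  have hpos : 0 < P.natDegree := by omega
  obtain ⟨x, hx, hxt⟩ := fibre hn hdeg (w := (t₀ : ℂ)) fun b hb => (ht₀.2 b hb).1
  have hex : ∀ i, ∃ ψ : ℂ → ℂ, ψ (t₀ : ℂ) = x i ∧ ∀ᶠ t in 𝓝 (t₀ : ℂ), P.eval (ψ t) = t ∧
      HasDerivAt ψ ((derivative P).eval (ψ t))⁻¹ t := by
    intro i
    have h := exists_inverse P (ht₀.2 (x i) (hxt i)).1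
    rw [hxt i] at h
    exact h
  choose ψ hψ0 hψ using hex
  have hc : ∀ i, ContinuousAt (fun t : ℝ => ψ i (t : ℂ)) t₀ := by
    intro i
    have h1 : ContinuousAt (ψ i) ((t₀ : ℝ) : ℂ) := ((hψ i).self_of_nhds.2).continuousAt
    exact ContinuousAt.comp (f := fun t : ℝ => (t : ℂ)) h1 Complex.continuous_ofReal.continuousAt
  refine ⟨fun i t => ψ i (t : ℂ), hc, ?_⟩
  have hev : ∀ᶠ t : ℝ in 𝓝 t₀, ∀ i, P.eval (ψ i (t : ℂ)) = (t : ℂ) := by
    rw [eventually_all]
    intro i
    have h1 : Tendsto (fun t : ℝ => (t : ℂ)) (𝓝 t₀) (𝓝 (t₀ : ℂ)) :=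
      Complex.continuous_ofReal.continuousAt
    exact (h1.eventually (hψ i)).mono fun t h => h.1
  have hne : ∀ᶠ t : ℝ in 𝓝 t₀, ∀ i j, i ≠ j → ψ i (t : ℂ) ≠ ψ j (t : ℂ) := by
    rw [eventually_all]
    intro i
    rw [eventually_all]
    intro j
    by_cases hij : i = j
    · exact Eventually.of_forall fun t h => absurd hij h
    · have h1 : (fun t : ℝ => ψ i (t : ℂ)) t₀ ≠ (fun t : ℝ => ψ j (t : ℂ)) t₀ := by
        simp only [hψ0]
        exact fun h => hij (hx h)
      exact (((hc i).ne_iff_eventually_ne (hc j)).1 h1).mono fun t h _ => h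
  filter_upwards [(isOpen_TTr γ hpos).mem_nhds ht₀, hev, hne] with t h1 h2 h3
  have hinj : Function.Injective fun i => ψ i (t : ℂ) := by
    intro i j hij
    by_contra h
    exact h3 i j h hij
  exact ⟨h1, hinj, h2, fun b hb => all hn hdeg hinj h2 hb⟩

end Pool.Agent.N76.SR
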