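import Pool.Agent.N76.SR.Stm
import Pool.Agent.TH826.UH.Ring

set_option autoImplicit false

/-!
# Project SR, part UNR: the symbols of the special points are unramified (helper407)
-/

namespace Pool.Agent.N76.SR

namespace UnrAux

open Polynomial
open Pool.Agent.Y94.R
open Pool.Agent.TH826.HD
open Pool.Agent.TH826.MK (KQ symb Unramified)

variable {L : Type*} [Field L] {D P Q : L[X]} {r : ℕ} {b : Fin r → L} {N : Type*} [Field N]
  (f : HOpen D b →+* N)

/-- the constants -/
noncomputable def cN : L →+* N := f.comp (hcst D b)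

/-- the image of `x` -/
noncomputable def xN : N := f (toH D b (hpol D X))

theorem map_hpol (p : L[X]) : f (toH D b (hpol D p)) = p.eval₂ (cN f) (xN f) := by
  have h : (f.comp (toH D b)).comp (hpol D) = Polynomial.eval₂RingHom (cN f) (xN f) := by
    refine Polynomial.ringHom_ext (fun a => ?_) ?_
    · rw [Polynomial.coe_eval₂RingHom, Polynomial.eval₂_C]
      rfl
    · rw [Polynomial.coe_eval₂RingHom, Polynomial.eval₂_X]
      rfl
  exact congrArg (fun h : L[X] →+* N => h p) h

/-- the image of `z` -/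
noncomputable def zN (P Q : L[X]) : N := f (toH D b (hpol D P + hpol D Q * hy D))

theorem zN_eq (hPQ : P ^ 2 - D * Q ^ 2 = 1) :
    zN f P Q ^ 2 - (C 2 * P).eval₂ (cN f) (xN f) * zN f P Q + 1 = 0 := by
  rw [← map_hpol]
  unfold zN
  have h1 := congrArg (fun p => f (toH D b (hpol D p))) hPQ
  have h2 := congrArg (fun p => f (toH D b p)) (hy_eq D)
  have h3 : (C 2 : L[X]) = 2 := map_ofNat C 2
  rw [h3]
  simp only [map_sub, map_mul, map_pow, map_one, map_add, map_ofNat] at h1 h2 ⊢
  linear_combination (-1) * h1 + f (toH D b (hpol D Q)) ^ 2 * h2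

theorem del_ne : ((∏ m, (X - C (b m)) : L[X])).eval₂ (cN f) (xN f) ≠ 0 := by
  rw [← map_hpol]
  exact ((isUnit_hDel D b).map f).ne_zero

theorem symb_eq (hPQ : P ^ 2 - D * Q ^ 2 = 1) (k l : Fin r) :
    ∃ f' : POpen (C 2 * P) b →+* N,
      KQ.map 2 f (symb (hent b hPQ k l)) = KQ.map 2 f' (symb (pent (C 2 * P) b k l)) := by
  have hg : evP (cN f) (xN f) (zN f P Q) (zN_eq f hPQ) (pDel (C 2 * P) b) ≠ 0 := by
    unfold pDel
    rw [evP_ppol]
    exact del_ne f
  refine ⟨liftP (evP (cN f) (xN f) (zN f P Q) (zN_eq f hPQ)) hg, ?_⟩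
  rw [KQ.map_symb, KQ.map_symb]
  congr 1
  have hx' : ∀ m : Fin r, Units.map (f : HOpen D b →* N) (hx D b m) =
      Units.map ((liftP (evP (cN f) (xN f) (zN f P Q) (zN_eq f hPQ)) hg :
        POpen (C 2 * P) b →+* N) : POpen (C 2 * P) b →* N) (ux (C 2 * P) b m) := by
    intro m
    apply Units.ext
    change f (toH D b (hpol D (X - C (b m)))) =
      liftP (evP (cN f) (xN f) (zN f P Q) (zN_eq f hPQ)) hg
        (toP (C 2 * P) b (ppol (C 2 * P) (X - C (b m))))
    rw [liftP_toP, evP_ppol, map_hpol]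
  funext i
  fin_cases i
  · apply Units.ext
    change f (toH D b (hpol D P + hpol D Q * hy D)) =
      liftP (evP (cN f) (xN f) (zN f P Q) (zN_eq f hPQ)) hg
        (toP (C 2 * P) b (pz (C 2 * P)))
    rw [liftP_toP, evP_pz]
    rfl
  · change Units.map (f : HOpen D b →* N) (hx D b k / hx D b l) =
      Units.map ((liftP (evP (cN f) (xN f) (zN f P Q) (zN_eq f hPQ)) hg :
        POpen (C 2 * P) b →+* N) : POpen (C 2 * P) b →* N)
        (ux (C 2 * P) b k / ux (C 2 * P) b l)
    rw [_root_.map_div, _root_.map_div, hx', hx']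

end UnrAux

/-- UNR -/
theorem unr.{u, w} : S_UNR.{u, w} := by
  intro L _ _ D P Q hPQ r b s hF hb hζ N _ f k l
  obtain ⟨f', hf'⟩ := UnrAux.symb_eq f hPQ k l
  rw [hf']
  exact Pool.Agent.TH826.UH.symb_mem_unramified f' s hF hb k l hζ

end Pool.Agent.N76.SR
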