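import Pool.Agent.N76.SR.Tori
import Pool.Agent.N76.SR.Core
import Pool.Agent.N76.SR.Cpl
import Pool.Agent.N76.SR.Der
import Pool.Agent.N76.SR.Good
import Pool.Agent.N76.SR.Int
import Pool.Agent.N76.SR.Lin
import Pool.Agent.N76.SR.Opn
import Pool.Agent.N76.SR.Rho
import Pool.Agent.N76.SR.Sec
import Pool.Agent.N76.SR.Unr

set_option autoImplicit false

/-!
# Project SR: the theorem for given loops
-/

namespace Pool.Agent.N76.SR

open Polynomial

open Pool.Agent.Y94.R

open scoped Classical in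
/-- Let `K` be a number field, `D` a squarefree polynomial of degree `2 g + 2` over `K`, and `P² - D Q² = 1`, `P' = r Q`,
where `2 P` is monic, not constant and has integral coefficients. Let `σ_1, ..., σ_m` be *any* embeddings of `K` in
`ℂ`, `m ≥ 1` arbitrary, repetitions allowed. For each `a` let `γ_{a,l} = (x_{a,l}, y_{a,l})`, `1 ≤ l ≤ M`, be loops in the
complex points of the curve `y² = D(x)` over `σ_a` with `y_{a,l} ≠ 0`, whose period vectors `(∫ x^j dx / y)_{j < g}` are
linearly independent over `ℝ` (so `M ≤ 2 g`), that avoid the zeros of `r(x)`, and such that `P(x)` takes only finitely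
many values in the real interval `(-1, 1)` on the loops. Let `k_a` be the number of the roots `β` of `r` at `σ_a`,
counted with multiplicities, such that `P(β)` is real and `|P(β)| > 1`, and let `R = m M - ∑ k_a`. Let `p ≥ 2`.

There is an `N₀` with the following properties. Let `N ≥ N₀` be prime to `p` and to the discriminant of `K`, and let `L`
be a number field over `K` which contains all roots `b` of the polynomial `C_N(2 P(x)) - 2`, that is, all `b` with
`2 P(b) = ζ + 1/ζ`, `ζ ^ N = 1` (every number field over `K` has a finite extension with this property). The coordinate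
ring of `C` over `L` is a domain, the complex points of `C` over all embeddings of `L` are smooth, and for every
embedding `s_1` of `L` above `σ_1` there are embeddings `s_2, ..., s_m` of `L` above `σ_2, ..., σ_m` and roots
`b_0, ..., b_R`, such that the symbols `{P + Q y, (x - b_i) / (x - b_j)}` are unramified at all discrete valuations of
the function field of `C`, and the `R` vectors of the regulators of the symbols `{P + Q y, (x - b_i) / (x - b_0)}` on all
the `m M` loops `γ_{a,l}`, in the complex points over `s_a`, are linearly independent over `ℝ`. -/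
theorem all_.{u, v, w} (g m M R : ℕ) (hm : 0 < m) (K : Type u) [Field K] [NumberField K] (D P Q r : K[X])
    (hD : Squarefree D) (hdeg : D.natDegree = 2 * g + 2) (hPQ : P ^ 2 - D * Q ^ 2 = 1) (hP : 0 < P.natDegree)
    (hr : derivative P = r * Q) (hmon : (C 2 * P).Monic) (hint : ∀ i, IsIntegral ℤ ((C 2 * P).coeff i))
    (σ : Fin m → (K →+* ℂ)) (γ : ∀ a, Fin M → Lp (D.map (σ a)))
    (hind : ∀ a, LinearIndependent ℝ fun (l : Fin M) (j : Fin g) =>
      ∫ t in (0 : ℝ)..1, (γ a l).x t ^ (j : ℕ) * deriv (γ a l).x t / (γ a l).y t)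
    (hoff : ∀ a l t, (r.map (σ a)).eval ((γ a l).x t) ≠ 0)
    (hfin : ∀ a, {τ : ℝ | |τ| < 1 ∧ ∃ l t, (P.map (σ a)).eval ((γ a l).x t) = ((τ : ℝ) : ℂ)}.Finite)
    (hR : R + ∑ a, Multiset.card ((r.map (σ a)).roots.filter fun β =>
      ((P.map (σ a)).eval β).im = 0 ∧ 1 < |((P.map (σ a)).eval β).re|) = m * M)
    (p : ℕ) (hp : 2 ≤ p) :
    ∃ N₀ : ℕ, ∀ N : ℕ, N₀ ≤ N → N.Coprime p → N.Coprime (NumberField.discr K).natAbs →
      ∀ (L : Type v) [Field L] [NumberField L] [Algebra K L],
      ((Chebyshev.C L N).comp (C 2 * P.map (algebraMap K L)) - C 2).Splits →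
      IsDomain (HRing (D.map (algebraMap K L))) ∧
      (∀ (s : L →+* ℂ) (x y : ℂ), y ^ 2 = (D.map (algebraMap K L)).eval₂ s x →
        2 * y ≠ 0 ∨ (derivative (D.map (algebraMap K L))).eval₂ s x ≠ 0) ∧
      ∀ s₁ : L →+* ℂ, s₁.comp (algebraMap K L) = σ ⟨0, hm⟩ →
      ∃ (hPQL : (P.map (algebraMap K L)) ^ 2 - D.map (algebraMap K L) * (Q.map (algebraMap K L)) ^ 2 = 1)
        (s : Fin m → (L →+* ℂ)) (b : Fin (R + 1) → L),
        s ⟨0, hm⟩ = s₁ ∧
        (∀ a, (s a).comp (algebraMap K L) = σ a) ∧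
        (∀ i, (Chebyshev.C L N).eval ((C 2 * P.map (algebraMap K L)).eval (b i)) = 2) ∧
        UnramifiedSymbols.{v, w} hPQL b ∧
        IndependentRegulators hPQL s (fun a l => (γ a l).x) (fun a l => (γ a l).y) b := by
  let _ : ∀ a, DecidablePred (Bad (P.map (σ a))) := fun a β =>
    (inferInstance : Decidable (((P.map (σ a)).eval β).im = 0 ∧ 1 < |((P.map (σ a)).eval β).re|))
  have hGOOD : Pool.Agent.N76.SR.S_GOOD := Pool.Agent.N76.SR.good Pool.Agent.N76.SR.der
  have hOPEN : Pool.Agent.N76.SR.S_OPEN := Pool.Agent.N76.SR.opn Pool.Agent.N76.SR.sec Pool.Agent.N76.SR.rho_cont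
  obtain ⟨N₀, hN₀⟩ := Pool.Agent.N76.SR.main Pool.Agent.N76.SR.core (Pool.Agent.N76.SR.int_ hGOOD hOPEN)
    Pool.Agent.N76.SR.lin Pool.Agent.N76.SR.cpl hm hPQ hr hP hD hdeg σ γ hind hoff hfin hp (R := R) hR
  refine ⟨N₀ + 1, fun N hN hNp hNd L _ _ _ hsplit => ?_⟩
  have hN1 : 0 < N := by omega
  have hDL : Squarefree (D.map (algebraMap K L)) :=
    ((PerfectField.separable_iff_squarefree.2 hD).map (f := algebraMap K L)).squarefree
  have hdegL : 0 < (D.map (algebraMap K L)).natDegree := by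
    rw [natDegree_map, hdeg]
    omega
  refine ⟨isDomain_HRing hDL hdegL, fun s x y h => Pool.Agent.N76.SR.smooth hDL s x y h, fun s₁ hs₁ => ?_⟩
  obtain ⟨s, b, hs0, hb, hs, hoffb, hli⟩ := hN₀ N (by omega) hNp hNd L hsplit s₁ hs₁
  have hPQL : (P.map (algebraMap K L)) ^ 2 - D.map (algebraMap K L) * (Q.map (algebraMap K L)) ^ 2 = 1 := by
    rw [← Polynomial.map_pow, ← Polynomial.map_pow, ← Polynomial.map_mul, ← Polynomial.map_sub, hPQ, Polynomial.map_one]
  have hF : C 2 * P.map (algebraMap K L) = (C 2 * P).map (algebraMap K L) := by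
    rw [Polynomial.map_mul, Polynomial.map_C, map_ofNat (algebraMap K L)]
  have hmL : (C 2 * P.map (algebraMap K L)).Monic := by
    rw [hF]
    exact hmon.map _
  have hdL : 0 < (C 2 * P.map (algebraMap K L)).natDegree := by
    rw [natDegree_C_mul two_ne_zero, natDegree_map]
    exact hP
  have hiL : ∀ i, IsIntegral ℤ ((C 2 * P.map (algebraMap K L)).coeff i) := fun i => by
    rw [hF, coeff_map]
    exact (hint i).map ((algebraMap K L).toIntAlgHom)
  have hsp : ∀ i, ∃ (ζ : ℂ) (k : ℕ), k ≠ 0 ∧ ζ ^ k = 1 ∧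
      s₁ ((C 2 * P.map (algebraMap K L)).eval (b i)) = ζ + ζ⁻¹ := fun i =>
    Pool.Agent.N76.EC.special_of_eval s₁ hN1 (hb i)
  have hbi : ∀ i, IsIntegral ℤ (b i) := fun i => by
    obtain ⟨ξ, k, hk, h1, h2⟩ := hsp i
    exact Pool.Agent.N686.PF.isIntegral_special s₁ hmL hdL hiL hk h1 h2
  have hpell : ∀ a, Pell (D.map (σ a)) (P.map (σ a)) (Q.map (σ a)) (r.map (σ a)) := fun a =>
    ⟨by rw [← Polynomial.map_pow, ← Polynomial.map_pow, ← Polynomial.map_mul, ← Polynomial.map_sub, hPQ,
        Polynomial.map_one], by rw [derivative_map, hr, Polynomial.map_mul], by rwa [natDegree_map]⟩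
  refine ⟨hPQL, s, b, hs0, hs, hb, ?_, ?_⟩
  · exact Pool.Agent.N76.SR.unram Pool.Agent.N76.SR.unr hPQL s₁ hDL hdegL hiL hbi hsp
  · exact Pool.Agent.N76.SR.indep_reg (r := r.map (algebraMap K L)) hPQL s
      (fun a => by rw [Polynomial.map_map, hs]) (fun a => by rw [Polynomial.map_map, hs])
      (fun a => by rw [Polynomial.map_map, hs]) (fun a => by rw [Polynomial.map_map, hs]) hpell γ b hoffb hli

end Pool.Agent.N76.SR
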