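import Pool.Agent.N76.SR.Stm
import Pool.Agent.N76.EC.Main3
import Pool.Agent.N76.EC.Hyp

set_option autoImplicit false

/-!
# Assembly: the points, the embeddings and the rank
-/

namespace Pool.Agent.N76.SR

open Polynomial MeasureTheory Set Filter Topology Module
open Pool.Agent.Y94.R
open Pool.Agent.Y775.CC (uu uu_one)
open Pool.Agent.N76.IR (exists_embedding')
open Pool.Agent.N76.EC (exists_point map_cheb' uu_cos cheb_cos)
open scoped Real

/-- the fibre over a regular value -/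
theorem exists_fib {G : ℂ[X]} {n : ℕ} (hdeg : G.natDegree = n) (hn : 0 < n) {w : ℂ}
    (hw : ∀ b : ℂ, G.eval b = w → (derivative G).eval b ≠ 0) :
    ∃ x : Fin n → ℂ, Function.Injective x ∧ ∀ i, G.eval (x i) = w := by
  classical
  have hne : G - C w ≠ 0 := by
    intro h
    have h1 := congrArg natDegree (sub_eq_zero.1 h)
    rw [hdeg, natDegree_C] at h1
    omega
  have hdegu : (G - C w).natDegree = n := by rw [natDegree_sub_C, hdeg]
  have hcard : (G - C w).roots.card = n := by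
    rw [← hdegu]
    exact (IsAlgClosed.splits _).natDegree_eq_card_roots.symm
  have hnodup : (G - C w).roots.Nodup := by
    rw [Multiset.nodup_iff_count_le_one]
    intro x
    rw [count_roots]
    by_contra hcon
    push Not at hcon
    have h1 := (one_lt_rootMultiplicity_iff_isRoot hne).1 hcon
    have h2 : (derivative G).eval x = 0 := by
      have := h1.2
      rw [derivative_sub, derivative_C, sub_zero] at this
      exact this
    have h3 : G.eval x = w := by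
      have := h1.1
      rw [IsRoot.def, eval_sub, eval_C, sub_eq_zero] at this
      exact this
    exact hw x h3 h2
  set S := (G - C w).roots.toFinset with hS
  have hSc : S.card = n := by
    rw [hS, Multiset.toFinset_card_of_nodup hnodup, hcard]
  have hSr : ∀ y ∈ S, G.eval y = w := by
    intro y hy
    rw [hS, Multiset.mem_toFinset, mem_roots hne, IsRoot.def, eval_sub, eval_C,
      sub_eq_zero] at hy
    exact hy
  exact ⟨fun i => ((S.equivFinOfCardEq hSc).symm i : ℂ), fun i j hij =>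
    (S.equivFinOfCardEq hSc).symm.injective (Subtype.ext hij), fun i =>
    hSr _ ((S.equivFinOfCardEq hSc).symm i).2⟩

/-- almost all `t` are in `TTr` -/
theorem TTr_cofinite {D P : ℂ[X]} {M : ℕ} (γ : Fin M → Lp D) (hdeg : 0 < P.natDegree)
    (hfin : {t : ℝ | |t| < 1 ∧ ∃ l s, P.eval ((γ l).x s) = ((t : ℝ) : ℂ)}.Finite) :
    {t : ℝ | |t| < 1 ∧ t ∉ TTr γ P}.Finite := by
  classical
  have hP' : derivative P ≠ 0 := by
    intro h
    have h1 := derivative_eq_zero.1 h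
    omega
  have h1 : ((fun b : ℂ => (P.eval b).re) '' {b | (derivative P).eval b = 0}).Finite := by
    refine Set.Finite.image _ ?_
    refine ((derivative P).roots.toFinset.finite_toSet).subset fun b hb => ?_
    rw [Finset.mem_coe, Multiset.mem_toFinset, mem_roots hP']
    exact hb
  refine (h1.union hfin).subset ?_
  rintro t ⟨ht1, ht2⟩
  have h2 : ∃ b : ℂ, P.eval b = (t : ℝ) ∧ ¬ ((derivative P).eval b ≠ 0 ∧ ∀ l, (γ l).Off b) := by
    by_contra hcon
    push Not at hcon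
    exact ht2 ⟨ht1, fun b hb => hcon b hb⟩
  obtain ⟨b, hb, h3⟩ := h2
  by_cases h4 : (derivative P).eval b = 0
  · left
    exact ⟨b, h4, by simp only [hb, Complex.ofReal_re]⟩
  · right
    have h5 : ¬ ∀ l, (γ l).Off b := fun h => h3 ⟨h4, h⟩
    push Not at h5
    obtain ⟨l, hl⟩ := h5
    unfold Lp.Off at hl
    push Not at hl
    obtain ⟨s, hs⟩ := hl
    exact ⟨ht1, l, s, by rw [sub_eq_zero.1 hs, hb]⟩

theorem TTr_nonempty {D P : ℂ[X]} {M : ℕ} (γ : Fin M → Lp D) (h : {t : ℝ | |t| < 1 ∧ t ∉ TTr γ P}.Finite) :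
    (TTr γ P).Nonempty := by
  by_contra hcon
  rw [Set.not_nonempty_iff_eq_empty] at hcon
  rw [hcon] at h
  have h1 : (Ioo (-1 : ℝ) 1).Infinite := Set.Ioo_infinite (by norm_num)
  refine h1 (h.subset fun t ht => ⟨abs_lt.2 ht, Set.notMem_empty t⟩)

theorem main (hCORE : S_CORE) (hINT : S_INT) (hLIN : S_LIN) (hCPL : S_CPL) {m M g : ℕ} (hm : 0 < m) {K : Type*}
    [Field K] [NumberField K] {D P Q r : K[X]} (hPQ : P ^ 2 - D * Q ^ 2 = 1) (hr : derivative P = r * Q)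
    (hdeg : 0 < P.natDegree) (hD : Squarefree D) (hDg : D.natDegree = 2 * g + 2)
    (σ : Fin m → (K →+* ℂ)) (γ : ∀ a, Fin M → Lp (D.map (σ a)))
    (hind : ∀ a, LinearIndependent ℝ fun (l : Fin M) (j : Fin g) =>
      ∫ t in (0 : ℝ)..1, (γ a l).x t ^ (j : ℕ) * deriv (γ a l).x t / (γ a l).y t)
    (hoffr : ∀ a l t, (r.map (σ a)).eval ((γ a l).x t) ≠ 0)
    (hfin : ∀ a, {t : ℝ | |t| < 1 ∧ ∃ l s, (P.map (σ a)).eval ((γ a l).x s) = ((t : ℝ) : ℂ)}.Finite)
    {p : ℕ} (hp : 2 ≤ p) {R : ℕ} [∀ a, DecidablePred (Bad (P.map (σ a)))]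
    (hR : R + ∑ a, Multiset.card ((r.map (σ a)).roots.filter (Bad (P.map (σ a)))) = m * M) :
    ∃ N₀ : ℕ, ∀ N : ℕ, N₀ ≤ N → N.Coprime p → N.Coprime (NumberField.discr K).natAbs →
      ∀ (L : Type*) [Field L] [NumberField L] [Algebra K L],
      ((Chebyshev.C L N).comp (C 2 * P.map (algebraMap K L)) - C 2).Splits →
      ∀ s₀ : L →+* ℂ, s₀.comp (algebraMap K L) = σ ⟨0, hm⟩ →
      ∃ (s : Fin m → (L →+* ℂ)) (b : Fin (R + 1) → L),
        s ⟨0, hm⟩ = s₀ ∧
        (∀ i, (Chebyshev.C L N).eval ((C 2 * P.map (algebraMap K L)).eval (b i)) = 2) ∧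
        (∀ a, (s a).comp (algebraMap K L) = σ a) ∧
        (∀ a l i, (γ a l).Off (s a (b i))) ∧
        LinearIndependent ℝ fun (j : Fin R) (a : Fin m) (l : Fin M) =>
          (γ a l).rho (P.map (σ a)) (Q.map (σ a)) (s a (b j.succ)) -
            (γ a l).rho (P.map (σ a)) (Q.map (σ a)) (s a (b 0)) := by
  classical
  have hπ := Real.pi_pos
  have hpell : ∀ a, Pell (D.map (σ a)) (P.map (σ a)) (Q.map (σ a)) (r.map (σ a)) := fun a =>
    ⟨by rw [← Polynomial.map_pow, ← Polynomial.map_pow, ← Polynomial.map_mul, ← Polynomial.map_sub, hPQ,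
        Polynomial.map_one], by rw [derivative_map, hr, Polynomial.map_mul], by rwa [natDegree_map]⟩
  have hDa : ∀ a, Squarefree (D.map (σ a)) := fun a =>
    ((PerfectField.separable_iff_squarefree.2 hD).map (f := σ a)).squarefree
  have hTf : ∀ a, {t : ℝ | |t| < 1 ∧ t ∉ TTr (γ a) (P.map (σ a))}.Finite := fun a =>
    TTr_cofinite (γ a) (hpell a).deg (hfin a)
  have hT : ∀ a, (TTr (γ a) (P.map (σ a))).Nonempty := fun a => TTr_nonempty (γ a) (hTf a)
  have hcore : ∀ a, finrank ℝ (NL (γ a) (P.map (σ a)) (r.map (σ a))) ≤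
      Multiset.card ((r.map (σ a)).roots.filter (Bad (P.map (σ a)))) := fun a => by
    refine hCORE (γ a) (hDa a) (hpell a) (fun l β hβ t ht => hoffr a l t (by rw [sub_eq_zero.1 ht, hβ])) (hTf a)
      fun c hc => ?_
    rw [(hpell a).natDegree_r (g := g) (by rw [natDegree_map, hDg])]
    exact periods (γ a) (hind a) c hc
  obtain ⟨V, hV1, hV2⟩ := hCPL (fun a => NL (γ a) (P.map (σ a)) (r.map (σ a))) (R := R) (by
    rw [← hR]
    exact Nat.add_le_add_left (Finset.sum_le_sum fun a _ => hcore a) _)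
  set n := P.natDegree with hn
  obtain ⟨κ, N₁, hN₁⟩ := hINT (n := n) γ hpell (fun a => natDegree_map _) hdeg hT V hV2 hp
  refine ⟨N₁ + 1, fun N hN hNp hNd L _ _ _ hsplit s₀ hs₀ => ?_⟩
  have hN0 : 0 < N := by omega
  have : NeZero N := ⟨hN0.ne'⟩
  have hgood := hN₁ N (by omega)
  set T : ℕ := p ^ κ with hTdef
  have hTN : ∀ a : ℕ, (T ^ a).Coprime N := fun a =>
    Nat.Coprime.pow_left _ (Nat.Coprime.pow_left _ hNp.symm)
  set F' : L[X] := C 2 * P.map (algebraMap K L) with hF'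
  -- the embeddings
  have hemb : ∀ a : Fin m, ∃ s : L →+* ℂ, s.comp (algebraMap K L) = σ a ∧
      (∀ (y : L) (j : ℤ), s₀ y = uu 1 ((j : ℝ) / N) → s y = uu 1 (((T ^ (a : ℕ) : ℕ) : ℝ) * ((j : ℝ) / N))) ∧
      (a = ⟨0, hm⟩ → s = s₀) := by
    intro a
    by_cases ha : a = ⟨0, hm⟩
    · refine ⟨s₀, by rw [ha, hs₀], fun y j hy => ?_, fun _ => rfl⟩
      rw [ha, pow_zero, Nat.cast_one, one_mul, hy]
    · obtain ⟨s, h1, h2⟩ := exists_embedding' s₀ (σ a) hNd (hTN a)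
      exact ⟨s, h1, h2, fun h => absurd h ha⟩
  choose s hs1 hs2 hs3 using hemb
  have hFs : ∀ (s' : L →+* ℂ) (a : Fin m), s'.comp (algebraMap K L) = σ a → F'.map s' = C 2 * P.map (σ a) := by
    intro s' a h
    rw [hF', Polynomial.map_mul, Polynomial.map_map, h, Polynomial.map_C, map_ofNat]
  have hdeg' : 0 < F'.natDegree := by
    rw [hF', natDegree_C_mul two_ne_zero, natDegree_map]
    exact hdeg
  -- the fibres
  set Ω := {q : ℤ × (Fin m → ℤ) // ∀ a, Real.cos (2 * π * (((T : ℕ) : ℝ) ^ (a : ℕ) * ((q.1 : ℝ) / N) - q.2 a)) ∈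
    TTr (γ a) (P.map (σ a))} with hΩ
  set y : Ω → Fin m → ℝ := fun ω a => ((T : ℕ) : ℝ) ^ (a : ℕ) * ((ω.1.1 : ℝ) / N) - ω.1.2 a with hy
  have hyT : ∀ (ω : Ω) (a : Fin m), Real.cos (2 * π * y ω a) ∈ TTr (γ a) (P.map (σ a)) := fun ω a => ω.2 a
  have hycos : ∀ (ω : Ω) (a : Fin m), uu 1 (((T : ℕ) : ℝ) ^ (a : ℕ) * ((ω.1.1 : ℝ) / N)) =
      2 * ((Real.cos (2 * π * y ω a) : ℝ) : ℂ) := by
    intro ω a
    rw [uu_cos]
    have e : ((2 * π * (((T : ℕ) : ℝ) ^ (a : ℕ) * ((ω.1.1 : ℝ) / N)) : ℝ) : ℂ) =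
        ((2 * π * y ω a : ℝ) : ℂ) + (ω.1.2 a) * (2 * π) := by
      rw [hy]
      push_cast
      ring
    rw [e, Complex.cos_add_int_mul_two_pi, Complex.ofReal_cos]
  have hy0 : ∀ ω, 2 * ((Real.cos (2 * π * y ω ⟨0, hm⟩) : ℝ) : ℂ) = uu 1 ((ω.1.1 : ℝ) / N) := by
    intro ω
    rw [← hycos ω ⟨0, hm⟩, pow_zero, one_mul]
  have hfib : ∀ ω : Ω, ∃ x : Fin n → ℂ, Function.Injective x ∧
      ∀ i, (P.map (σ ⟨0, hm⟩)).eval (x i) = ((Real.cos (2 * π * y ω ⟨0, hm⟩) : ℝ) : ℂ) := fun ω =>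
    exists_fib (natDegree_map _) hdeg fun b hb => ((hyT ω ⟨0, hm⟩).2 b hb).1
  choose x hx1 hx2 using hfib
  have hpt : ∀ (ω : Ω) (l : Fin n), ∃ b : L, s₀ b = x ω l := by
    intro ω l
    refine exists_point hdeg' hN0 hsplit ?_
    rw [hFs s₀ _ hs₀, eval_mul, eval_C, hx2, hy0, uu_cos, cheb_cos hN0]
  choose b hb using hpt
  have hbinj : ∀ ω, Function.Injective (b ω) := by
    intro ω l l' h1
    refine hx1 ω ?_
    rw [← hb, ← hb, h1]
  have hFb : ∀ ω l, s₀ (F'.eval (b ω l)) = uu 1 ((ω.1.1 : ℝ) / N) := fun ω l => by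
    have h1 : (F'.map s₀).eval (s₀ (b ω l)) = s₀ (F'.eval (b ω l)) := by
      rw [eval_map, eval₂_hom]
    rw [← h1, hb, hFs s₀ _ hs₀, eval_mul, eval_C, hx2, hy0]
  have hPb : ∀ ω (a : Fin m) l, (P.map (σ a)).eval (s a (b ω l)) = ((Real.cos (2 * π * y ω a) : ℝ) : ℂ) := by
    intro ω a l
    have h1 : (F'.map (s a)).eval (s a (b ω l)) = s a (F'.eval (b ω l)) := by
      rw [eval_map, eval₂_hom]
    rw [hs2 a _ ω.1.1 (hFb ω l), Nat.cast_pow, hycos, hFs (s a) a (hs1 a), eval_mul, eval_C] at h1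
    exact mul_left_cancel₀ two_ne_zero h1
  set v : Ω × Fin n → Fin m → Fin M → ℝ := fun q a l =>
    (γ a l).rho (P.map (σ a)) (Q.map (σ a)) (s a (b q.1 q.2)) with hv
  -- a base point
  obtain ⟨ω₀⟩ : Nonempty Ω := by
    obtain ⟨j, i, h1, -⟩ := hgood (0, 1) V.zero_mem (by
      intro h
      have := congrArg Prod.snd h
      simp at this)
    exact ⟨⟨(j, i), h1⟩⟩
  obtain ⟨β, hβ⟩ := hLIN v (ω₀, ⟨0, hdeg⟩) V hV1 (fun c hcV hc => by
    by_contra hc0
    set k₀ : ℝ := ∑ a, ∑ l, c a l * v (ω₀, ⟨0, hdeg⟩) a l with hk₀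
    obtain ⟨j, i, h1, h2⟩ := hgood (c, k₀) hcV (fun h => hc0 (congrArg Prod.fst h))
    set ω : Ω := ⟨(j, i), h1⟩ with hω
    obtain ⟨k, hk⟩ := h2 (fun a l => s a (b ω l)) (fun a => (s a).injective.comp (hbinj ω)) (fun a l => hPb ω a l)
    apply hk
    have h3 := hc (ω, k)
    simp only [mul_sub, Finset.sum_sub_distrib] at h3
    show Lk γ _ _ c _ k = k₀
    unfold Lk
    rw [hk₀]
    exact sub_eq_zero.1 h3)
  set Y : Fin (R + 1) → Ω × Fin n := Fin.cons (ω₀, ⟨0, hdeg⟩) β with hY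
  refine ⟨s, fun i => b (Y i).1 (Y i).2, hs3 _ rfl, fun i => ?_, hs1, fun a l i => ?_, ?_⟩
  · apply s₀.injective
    rw [map_cheb', hFb, uu_cos, cheb_cos hN0, map_ofNat]
  · exact ((hyT (Y i).1 a).2 _ (hPb (Y i).1 a (Y i).2)).2 l
  · exact hβ

end Pool.Agent.N76.SR
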