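import Pool.Agent.Y94.R.Core
import Pool.Agent.Y94.R.Asm
import Pool.Agent.N76.IR.Fam
import Pool.Agent.N76.IR.Den

set_option autoImplicit false

/-!
# Project SR: regulators at many places, full rank. Definitions and statements of the parts.
-/

namespace Pool.Agent.N76.SR

open Polynomial MeasureTheory Set Filter Topology Module
open Pool.Agent.Y94.R
open scoped Real

section one

variable {D : ℂ[X]} {M : ℕ} (γ : Fin M → Lp D)

/-- the regular values `t ∈ (-1, 1)` of `P` whose fibre avoids the loops -/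
def TTr (P : ℂ[X]) : Set ℝ :=
  {t | |t| < 1 ∧ ∀ b : ℂ, P.eval b = (t : ℝ) → (derivative P).eval b ≠ 0 ∧ ∀ l, (γ l).Off b}

/-- the combinations of the loops for which the regulator integral is locally constant on the fibres over `TTr` -/
def Loc (P r : ℂ[X]) (c : Fin M → ℝ) : Prop :=
  ∀ t ∈ TTr γ P, ∀ b : ℂ, P.eval b = (t : ℝ) → (((derivative P).eval b)⁻¹ * Jc γ c r b).im = 0

theorem Jc_add (r : ℂ[X]) (c c' : Fin M → ℝ) (b : ℂ) : Jc γ (c + c') r b = Jc γ c r b + Jc γ c' r b := by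
  unfold Jc
  rw [← Finset.sum_add_distrib]
  refine Finset.sum_congr rfl fun l _ => ?_
  rw [Pi.add_apply]
  push_cast
  ring

theorem Jc_smul (r : ℂ[X]) (x : ℝ) (c : Fin M → ℝ) (b : ℂ) : Jc γ (x • c) r b = (x : ℂ) * Jc γ c r b := by
  unfold Jc
  rw [Finset.mul_sum]
  refine Finset.sum_congr rfl fun l _ => ?_
  rw [Pi.smul_apply, smul_eq_mul]
  push_cast
  ring

/-- the space of these combinations -/
noncomputable def NL (P r : ℂ[X]) : Submodule ℝ (Fin M → ℝ) where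
  carrier := {c | Loc γ P r c}
  zero_mem' := by
    intro t _ b _
    have h := Jc_smul γ r 0 0 b
    rw [zero_smul, Complex.ofReal_zero, zero_mul] at h
    rw [h, mul_zero, Complex.zero_im]
  add_mem' := by
    intro c c' h h' t ht b hb
    rw [Jc_add, mul_add, Complex.add_im, h t ht b hb, h' t ht b hb, add_zero]
  smul_mem' := by
    intro x c h t ht b hb
    rw [Jc_smul, show ((derivative P).eval b)⁻¹ * ((x : ℂ) * Jc γ c r b) =
      (x : ℂ) * (((derivative P).eval b)⁻¹ * Jc γ c r b) by ring, Complex.im_ofReal_mul, h t ht b hb, mul_zero]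

end one

section many

variable {m M : ℕ} {D : Fin m → ℂ[X]} (γ : ∀ a, Fin M → Lp (D a))

/-- the combination of the regulator integrals at the points `x a k`, `k` fixed -/
noncomputable def Lk (P Q : Fin m → ℂ[X]) {n : ℕ} (c : Fin m → Fin M → ℝ) (x : Fin m → Fin n → ℂ) (k : Fin n) : ℝ :=
  ∑ a, ∑ l, c a l * (γ a l).rho (P a) (Q a) (x a k)

/-- no relation with the coefficients `c.1` and the constant `c.2` on the fibres over the angles `θ`, for any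
numberings `x` of the fibres -/
def Good (P Q : Fin m → ℂ[X]) (n : ℕ) (c : (Fin m → Fin M → ℝ) × ℝ) (θ : Fin m → ℝ) : Prop :=
  (∀ a, Real.cos (2 * π * θ a) ∈ TTr (γ a) (P a)) ∧
  ∀ x : Fin m → Fin n → ℂ, (∀ a, Function.Injective (x a)) →
    (∀ a k, (P a).eval (x a k) = ((Real.cos (2 * π * θ a) : ℝ) : ℂ)) → ∃ k, Lk γ P Q c.1 x k ≠ c.2

end many

/-! ## Statements -/

/-- CORE: the dimension is at most the number of the critical points with real critical values outside of `[-1, 1]`. -/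
def S_CORE : Prop := ∀ {D P Q r : ℂ[X]} {M : ℕ} (γ : Fin M → Lp D) [DecidablePred (Bad P)], Squarefree D →
  Pell D P Q r → (∀ l β, r.eval β = 0 → (γ l).Off β) → {t : ℝ | |t| < 1 ∧ t ∉ TTr γ P}.Finite →
  (∀ c : Fin M → ℝ, c ≠ 0 → ∃ j < r.natDegree, Ic γ c (X ^ j) ≠ 0) →
  finrank ℝ (NL γ P r) ≤ Multiset.card (r.roots.filter (Bad P))

/-- DER: a combination outside of `NL` takes infinitely many values on a continuous branch. -/
def S_DER : Prop := ∀ {D P Q r : ℂ[X]} {M : ℕ} (γ : Fin M → Lp D), Pell D P Q r →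
  ∀ c : Fin M → ℝ, c ∉ NL γ P r → ∃ (a₁ a₂ : ℝ) (ψ : ℝ → ℂ), a₁ < a₂ ∧ (∀ t ∈ Icc a₁ a₂, t ∈ TTr γ P) ∧
    (∀ t ∈ Icc a₁ a₂, P.eval (ψ t) = (t : ℝ)) ∧
    ((fun t => ∑ l, c l * (γ l).rho P Q (ψ t)) '' Icc a₁ a₂).Infinite

/-- SEC: continuous numberings of the fibres near a point of `TTr`. -/
def S_SEC : Prop := ∀ {D P : ℂ[X]} {M n : ℕ} (γ : Fin M → Lp D), P.natDegree = n → 0 < n →
  ∀ t₀ ∈ TTr γ P, ∃ ψ : Fin n → ℝ → ℂ, (∀ i, ContinuousAt (ψ i) t₀) ∧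
    ∀ᶠ t in 𝓝 t₀, t ∈ TTr γ P ∧ (Function.Injective fun i => ψ i t) ∧ (∀ i, P.eval (ψ i t) = (t : ℝ)) ∧
      ∀ b : ℂ, P.eval b = (t : ℝ) → ∃ i, b = ψ i t

/-- RHO: the regulator integral is continuous off the loop. -/
def S_RHO : Prop := ∀ {D P Q r : ℂ[X]} (γ : Lp D), Pell D P Q r → ∀ b : ℂ, γ.Off b → ContinuousAt (γ.rho P Q) b

/-- GOOD: one relation. -/
def S_GOOD : Prop := ∀ {m M n : ℕ} {D P Q r : Fin m → ℂ[X]} (γ : ∀ a, Fin M → Lp (D a)),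
  (∀ a, Pell (D a) (P a) (Q a) (r a)) → (∀ a, (P a).natDegree = n) → 0 < n → (∀ a, (TTr (γ a) (P a)).Nonempty) →
  ∀ c : (Fin m → Fin M → ℝ) × ℝ, c ≠ 0 → ((∀ a, c.1 a ∈ NL (γ a) (P a) (r a)) → c.1 = 0) →
    ∃ θ : Fin m → ℝ, Good γ P Q n c θ

/-- OPEN: the condition is open. -/
def S_OPEN : Prop := ∀ {m M n : ℕ} {D P Q r : Fin m → ℂ[X]} (γ : ∀ a, Fin M → Lp (D a)),
  (∀ a, Pell (D a) (P a) (Q a) (r a)) → (∀ a, (P a).natDegree = n) → 0 < n →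
  ∀ (c : (Fin m → Fin M → ℝ) × ℝ) (θ : Fin m → ℝ), Good γ P Q n c θ →
    ∀ᶠ q : ((Fin m → Fin M → ℝ) × ℝ) × (Fin m → ℝ) in 𝓝 (c, θ), Good γ P Q n q.1 q.2

/-- INT: points with a large denominator. -/
def S_INT : Prop := ∀ {m M n : ℕ} {D P Q r : Fin m → ℂ[X]} (γ : ∀ a, Fin M → Lp (D a)),
  (∀ a, Pell (D a) (P a) (Q a) (r a)) → (∀ a, (P a).natDegree = n) → 0 < n → (∀ a, (TTr (γ a) (P a)).Nonempty) →
  ∀ (V : Submodule ℝ (Fin m → Fin M → ℝ)), (∀ c ∈ V, (∀ a, c a ∈ NL (γ a) (P a) (r a)) → c = 0) →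
  ∀ {p : ℕ}, 2 ≤ p → ∃ (k N₀ : ℕ), ∀ N : ℕ, N₀ ≤ N → ∀ c : (Fin m → Fin M → ℝ) × ℝ, c.1 ∈ V → c ≠ 0 →
    ∃ (j : ℤ) (i : Fin m → ℤ), Good γ P Q n c fun a => ((p ^ k : ℕ) : ℝ) ^ (a : ℕ) * ((j : ℝ) / N) - i a

/-- LIN: linearly independent differences. -/
def S_LIN : Prop := ∀ {m M R : ℕ} {α : Type} (v : α → Fin m → Fin M → ℝ) (x₀ : α)
  (V : Submodule ℝ (Fin m → Fin M → ℝ)), R ≤ finrank ℝ V →
  (∀ c ∈ V, (∀ x, ∑ a, ∑ l, c a l * (v x a l - v x₀ a l) = 0) → c = 0) →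
  ∃ β : Fin R → α, LinearIndependent ℝ fun j => v (β j) - v x₀

/-- CPL: a complement of the product of the spaces `NL`. -/
def S_CPL : Prop := ∀ {m M R : ℕ} (W : Fin m → Submodule ℝ (Fin M → ℝ)),
  R + ∑ a, finrank ℝ (W a) ≤ m * M → ∃ V : Submodule ℝ (Fin m → Fin M → ℝ), R ≤ finrank ℝ V ∧
    ∀ c ∈ V, (∀ a, c a ∈ W a) → c = 0

/-- UNR: the symbols of the special points are unramified at all discrete valuations. -/
def S_UNR.{u, w} : Prop := ∀ {L : Type u} [Field L] [CharZero L] {D P Q : L[X]} (hPQ : P ^ 2 - D * Q ^ 2 = 1) {r : ℕ}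
  {b : Fin r → L} (s : L →+* ℂ), (∀ i, IsIntegral ℤ ((C 2 * P).coeff i)) → (∀ i, IsIntegral ℤ (b i)) →
  (∀ i, ∃ (ζ : ℂ) (k : ℕ), k ≠ 0 ∧ ζ ^ k = 1 ∧ s ((C 2 * P).eval (b i)) = ζ + ζ⁻¹) →
  ∀ (N : Type w) [Field N] (f : HOpen D b →+* N) (k l : Fin r),
    Pool.Agent.TH826.MK.KQ.map 2 f (Pool.Agent.TH826.MK.symb (hent b hPQ k l)) ∈
      Pool.Agent.TH826.MK.Unramified N 2

end Pool.Agent.N76.SR
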