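import Pool.Agent.N76.SR.Fin

set_option autoImplicit false

/-!
# The loops as tori over the embeddings
-/

namespace Pool.Agent.N76.SR

open Polynomial MeasureTheory Set Filter Topology Module
open Pool.Agent.Y94.R
open Pool.Agent.TH826.MK (KQ Torus symb Unramified)

/-- In the function field of the curve `y² = D(x)` the symbols `{P + Q y, (x - b_i) / (x - b_j)}` are unramified at all
discrete valuations. -/
def UnramifiedSymbols.{u, w} {L : Type u} [Field L] {D P Q : L[X]} (hPQ : P ^ 2 - D * Q ^ 2 = 1) {r : ℕ}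
    (b : Fin r → L) : Prop :=
  ∀ (N : Type w) [Field N] [Algebra (HRing D) N] [IsFractionRing (HRing D) N],
    ∃ f : HOpen D b →+* N, (∀ a : HRing D, f (toH D b a) = algebraMap (HRing D) N a) ∧
      ∀ i j, KQ.map 2 f (symb (hent b hPQ i j)) ∈ Unramified N 2

/-- The loops `(x a l, y a l)` are loops in the complex points over the embedding `s a` of the open part
`∏ (x - b_i) ≠ 0` of the curve `y² = D(x)`, and the `R` vectors of the regulators of the symbols
`{P + Q y, (x - b_i) / (x - b_0)}`, `1 ≤ i ≤ R`, on all these loops are linearly independent over `ℝ`. -/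
def IndependentRegulators {L : Type*} [Field L] {D P Q : L[X]} (hPQ : P ^ 2 - D * Q ^ 2 = 1) {m M R : ℕ}
    (s : Fin m → (L →+* ℂ)) (x y : Fin m → Fin M → ℝ → ℂ) (b : Fin (R + 1) → L) : Prop :=
  ∃ Γ : Fin m → Fin M → Torus (HOpen D b) 1,
    (∀ a l θ, (∀ c : L, (Γ a l).e θ (hcst D b c) = s a c) ∧
      (Γ a l).e θ (toH D b (hpol D X)) = x a l (θ 0) ∧
      (Γ a l).e θ (toH D b (hy D)) = y a l (θ 0)) ∧
    LinearIndependent ℝ fun (i : Fin R) (a : Fin m) (l : Fin M) => (Γ a l).reg (symb (hent b hPQ i.succ 0))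

theorem indep_reg {L : Type*} [Field L] {D P Q r : L[X]} (hPQ : P ^ 2 - D * Q ^ 2 = 1) {m M R : ℕ}
    (s : Fin m → (L →+* ℂ)) {Dc Pc Qc rc : Fin m → ℂ[X]} (hD : ∀ a, D.map (s a) = Dc a)
    (hP : ∀ a, P.map (s a) = Pc a) (hQ : ∀ a, Q.map (s a) = Qc a) (hr : ∀ a, r.map (s a) = rc a)
    (hp : ∀ a, Pell (Dc a) (Pc a) (Qc a) (rc a)) (γ : ∀ a, Fin M → Lp (Dc a)) (b : Fin (R + 1) → L)
    (hoff : ∀ a l i, (γ a l).Off (s a (b i)))
    (hli : LinearIndependent ℝ fun (j : Fin R) (a : Fin m) (l : Fin M) =>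
      (γ a l).rho (Pc a) (Qc a) (s a (b j.succ)) - (γ a l).rho (Pc a) (Qc a) (s a (b 0))) :
    IndependentRegulators hPQ s (fun a l => (γ a l).x) (fun a l => (γ a l).y) b := by
  obtain rfl : (fun a => D.map (s a)) = Dc := funext hD
  obtain rfl : (fun a => P.map (s a)) = Pc := funext hP
  obtain rfl : (fun a => Q.map (s a)) = Qc := funext hQ
  obtain rfl : (fun a => r.map (s a)) = rc := funext hr
  refine ⟨fun a l => mkH (γ a l) fun k => hoff a l k, fun a l θ => ⟨fun c => ?_, ?_, ?_⟩, ?_⟩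
  · rw [mkH_e, HPt.evA_hcst]
  · rw [mkH_e, HPt.evA_toH, HPt.evB_hpol, eval₂_X]
  · rw [mkH_e, HPt.evA_toH, HPt.evB_hy]
  · have h1 : (fun (k : Fin R) (a : Fin m) (l : Fin M) =>
        (mkH (γ a l) fun k => hoff a l k).reg (symb (hent b hPQ k.succ 0))) =
        fun (k : Fin R) (a : Fin m) (l : Fin M) => (γ a l).rho (P.map (s a)) (Q.map (s a)) (s a (b k.succ)) -
          (γ a l).rho (P.map (s a)) (Q.map (s a)) (s a (b 0)) := by
      funext k a l
      exact mkH_reg hPQ (hp a) (γ a l) (fun k => hoff a l k) k.succ 0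
    rw [h1]
    exact hli

/-- the symbols are unramified -/
theorem unram.{u, w} (hUNR : S_UNR.{u, w}) {L : Type u} [Field L] [CharZero L] {D P Q : L[X]}
    (hPQ : P ^ 2 - D * Q ^ 2 = 1) {r : ℕ} {b : Fin r → L} (s : L →+* ℂ) (hD : Squarefree D) (hdeg : 0 < D.natDegree)
    (hint : ∀ i, IsIntegral ℤ ((C 2 * P).coeff i)) (hb : ∀ i, IsIntegral ℤ (b i))
    (hsp : ∀ i, ∃ (ζ : ℂ) (k : ℕ), k ≠ 0 ∧ ζ ^ k = 1 ∧ s ((C 2 * P).eval (b i)) = ζ + ζ⁻¹) :
    UnramifiedSymbols.{u, w} hPQ b := by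
  intro N _ _ _
  have hdom : IsDomain (HRing D) := isDomain_HRing hD hdeg
  have hinj : Function.Injective (algebraMap (HRing D) N) := IsFractionRing.injective _ _
  have hne : algebraMap (HRing D) N (hDel D b) ≠ 0 := by
    rw [Ne, map_eq_zero_iff _ hinj]
    exact hDel_ne_zero b
  exact ⟨liftH (algebraMap (HRing D) N) hne, fun a => liftH_toH _ _ _,
    fun i j => hUNR hPQ s hint hb hsp N _ i j⟩

/-- smoothness of the complex points -/
theorem smooth {K : Type*} [Field K] [CharZero K] {D : K[X]} (hD : Squarefree D) (s : K →+* ℂ) (x y : ℂ)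
    (h : y ^ 2 = D.eval₂ s x) : 2 * y ≠ 0 ∨ (derivative D).eval₂ s x ≠ 0 := by
  by_contra hcon
  push Not at hcon
  obtain ⟨h1, h2⟩ := hcon
  have h3 : y = 0 := by simpa using h1
  rw [h3, zero_pow two_ne_zero] at h
  obtain ⟨a, b, hab⟩ := (PerfectField.separable_iff_squarefree.2 hD : D.Separable)
  have h4 := congrArg (fun q : K[X] => q.eval₂ s x) hab
  simp only [eval₂_add, eval₂_mul, eval₂_one, h2, ← h, mul_zero, add_zero] at h4
  exact zero_ne_one h4

end Pool.Agent.N76.SR
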